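import Mathlib

/-! Inverse monoids as star monoids, the monoid presented by Wagner's relations and one relator,
and its actions by injective maps with restricted domain. -/

set_option autoImplicit false

namespace Pool.Agent.P.MP_874ce0_al

/-- Wagner's identities. -/
class IsInv (M : Type) [Monoid M] [StarMul M] : Prop where
  reg : ∀ a : M, a * star a * a = a
  comm : ∀ a b : M, a * star a * (b * star b) = b * star b * (a * star a)

section Abstract

variable {M : Type} [Monoid M] [StarMul M]

/-- Right units. -/
def RU (m : M) : Prop := m * star m = 1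

theorem RU.one : RU (1 : M) := by simp [RU]

theorem RU.mul {m n : M} (hm : RU m) (hn : RU n) : RU (m * n) := by
  unfold RU at *
  rw [star_mul, mul_assoc, ← mul_assoc n, hn, one_mul, hm]

variable [IsInv M]

theorem comm' (a b : M) : star a * a * (b * star b) = b * star b * (star a * a) := by
  have := IsInv.comm (star a) b
  rwa [star_star] at this

theorem comm'' (a b : M) : star a * a * (star b * b) = star b * b * (star a * a) := by
  have := IsInv.comm (star a) (star b)
  rwa [star_star, star_star] at this

theorem RU.absorb' {m n : M} (h : RU (m * n)) : m * n * star n = m := by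
  unfold RU at h
  rw [star_mul] at h
  calc m * n * star n = m * star m * m * (n * star n) := by rw [IsInv.reg, mul_assoc]
    _ = m * (star m * m * (n * star n)) := by simp only [mul_assoc]
    _ = m * (n * star n * (star m * m)) := by rw [comm']
    _ = m * n * (star n * star m) * m := by simp only [mul_assoc]
    _ = m := by rw [h, one_mul]

theorem RU.absorb {m n : M} (h : RU (m * star n)) : m * star n * n = m := by
  have := h.absorb'
  rwa [star_star] at this

theorem RU.left {m n : M} (h : RU (m * n)) : RU m := by
  have h1 := h.absorb'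
  unfold RU at *
  rw [star_mul] at h
  calc m * star m = m * n * star n * star m := by rw [h1]
    _ = m * n * (star n * star m) := by simp only [mul_assoc]
    _ = 1 := h

theorem RU.chain {m n k : M} (h1 : RU (m * star n)) (h2 : RU (n * k)) : RU (m * k) := by
  have := h1.mul h2
  rwa [← mul_assoc, h1.absorb] at this

theorem RU.unit (u : Mˣ) : RU (u : M) := by
  have h := IsInv.reg (u : M)
  unfold RU
  calc (u : M) * star (u : M) = (u : M) * star (u : M) * u * (u⁻¹ : Mˣ) := by simp
    _ = 1 := by rw [h]; simp

theorem idem_split {m k : M} (h : m * star m * k = 1) : RU m ∧ k = 1 := by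
  have h1 : RU m := by
    unfold RU
    calc m * star m = m * star m * (m * star m * k) := by rw [h, mul_one]
      _ = (m * star m * m) * star m * k := by simp only [mul_assoc]
      _ = 1 := by rw [IsInv.reg, h]
  refine ⟨h1, ?_⟩
  unfold RU at h1
  rwa [h1, one_mul] at h

/-- The key identity used for the word problem. -/
theorem eps_absorb {s t W f : M} (h : RU (t * W * star f)) :
    s * star t * (t * star s) * (s * W * star f * (f * star W * star s)) =
      s * star t * (t * star s) := by
  have h0 : t * (W * star f * star (W * star f)) * star t = 1 := by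
    unfold RU at h
    rw [← h]
    simp only [star_mul, mul_assoc]
  have hreg : star t * t * star t = star t := by
    have := IsInv.reg (star t)
    rwa [star_star] at this
  have h1 : star t * t * (W * star f * star (W * star f)) = star t * t := by
    generalize W * star f = k at h0
    calc star t * t * (k * star k) = (star t * t * star t) * t * (k * star k) := by rw [hreg]
      _ = star t * t * (star t * t * (k * star k)) := by simp only [mul_assoc]
      _ = star t * t * (k * star k * (star t * t)) := by rw [comm']
      _ = star t * (t * (k * star k) * star t) * t := by simp only [mul_assoc]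
      _ = star t * t := by rw [h0, mul_one]
  calc s * star t * (t * star s) * (s * W * star f * (f * star W * star s))
      = s * (star t * t * (star s * s)) * (W * star f * star (W * star f)) * star s := by
        simp only [star_mul, star_star, mul_assoc]
    _ = s * (star s * s * (star t * t)) * (W * star f * star (W * star f)) * star s := by
        rw [comm'']
    _ = (s * star s * s) * (star t * t * (W * star f * star (W * star f))) * star s := by
        simp only [mul_assoc]
    _ = s * star t * (t * star s) := by rw [IsInv.reg, h1]; simp only [mul_assoc]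

end Abstract

section Presented

variable {Y : Type}

/-- The formal inverse of a word. -/
def invl (u : List (Y ⊕ Y)) : List (Y ⊕ Y) := u.reverse.map Sum.swap

@[simp] theorem invl_nil : invl ([] : List (Y ⊕ Y)) = [] := rfl

@[simp] theorem invl_cons (l : Y ⊕ Y) (u : List (Y ⊕ Y)) :
    invl (l :: u) = invl u ++ [l.swap] := by simp [invl]

@[simp] theorem invl_append (u v : List (Y ⊕ Y)) : invl (u ++ v) = invl v ++ invl u := by
  simp [invl]

@[simp] theorem invl_invl (u : List (Y ⊕ Y)) : invl (invl u) = u := by
  induction u with
  | nil => rfl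
  | cons l u ih => simp [ih]

def invw (u : FreeMonoid (Y ⊕ Y)) : FreeMonoid (Y ⊕ Y) :=
  FreeMonoid.ofList ((FreeMonoid.toList u).reverse.map Sum.swap)

theorem invw_mul (u v : FreeMonoid (Y ⊕ Y)) : invw (u * v) = invw v * invw u := by
  simp [invw]

theorem invw_invw (u : FreeMonoid (Y ⊕ Y)) : invw (invw u) = u :=
  congrArg FreeMonoid.ofList (invl_invl (FreeMonoid.toList u))

theorem invw_one : invw (1 : FreeMonoid (Y ⊕ Y)) = 1 := rfl

def wrel (w : List (Y ⊕ Y)) (a b : FreeMonoid (Y ⊕ Y)) : Prop :=
  (∃ u, a = u * invw u * u ∧ b = u) ∨
  (∃ u v, a = u * invw u * (v * invw v) ∧ b = v * invw v * (u * invw u)) ∨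
  (a = FreeMonoid.ofList w ∧ b = 1)

/-- The congruence presenting the one-relator inverse monoid. -/
def wcon (w : List (Y ⊕ Y)) : Con (FreeMonoid (Y ⊕ Y)) := conGen (wrel w)

theorem wcon_of {w : List (Y ⊕ Y)} {a b : FreeMonoid (Y ⊕ Y)} (h : wrel w a b) : wcon w a b :=
  ConGen.Rel.of a b h

theorem wcon_invw {w : List (Y ⊕ Y)} {a b : FreeMonoid (Y ⊕ Y)} (h : wcon w a b) :
    wcon w (invw a) (invw b) := by
  induction h with
  | of a b h =>
    rcases h with ⟨u, rfl, rfl⟩ | ⟨u, v, rfl, rfl⟩ | ⟨h1, h2⟩
    · refine wcon_of (Or.inl ⟨invw b, ?_, rfl⟩)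
      simp only [invw_mul, mul_assoc]
    · refine wcon_of (Or.inr (Or.inl ⟨v, u, ?_, ?_⟩)) <;> simp only [invw_mul, invw_invw]
    · rw [h1, h2]
      have h1 : wcon w (FreeMonoid.ofList w) 1 := wcon_of (Or.inr (Or.inr ⟨rfl, rfl⟩))
      have h2 : wcon w (FreeMonoid.ofList w * invw (FreeMonoid.ofList w) * FreeMonoid.ofList w)
          (FreeMonoid.ofList w) := wcon_of (Or.inl ⟨_, rfl, rfl⟩)
      have h3 : wcon w (FreeMonoid.ofList w * invw (FreeMonoid.ofList w) * FreeMonoid.ofList w)
          (1 * invw (FreeMonoid.ofList w) * 1) :=
        (wcon w).mul ((wcon w).mul h1 ((wcon w).refl _)) h1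
      rw [one_mul, mul_one] at h3
      exact (wcon w).trans ((wcon w).symm h3) ((wcon w).trans h2 h1)
  | refl a => exact (wcon w).refl _
  | symm _ ih => exact (wcon w).symm ih
  | trans _ _ ih1 ih2 => exact (wcon w).trans ih1 ih2
  | mul _ _ ih1 ih2 =>
    rw [invw_mul, invw_mul]
    exact (wcon w).mul ih2 ih1

/-- The presented inverse monoid. -/
def PM (w : List (Y ⊕ Y)) : Type := (wcon w).Quotient

instance (w : List (Y ⊕ Y)) : Monoid (PM w) := inferInstanceAs (Monoid (wcon w).Quotient)

def pmk (w : List (Y ⊕ Y)) : FreeMonoid (Y ⊕ Y) →* PM w := (wcon w).mk'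

theorem pmk_eq {w : List (Y ⊕ Y)} {a b : FreeMonoid (Y ⊕ Y)} :
    pmk w a = pmk w b ↔ wcon w a b := (wcon w).eq

theorem pmk_surj {w : List (Y ⊕ Y)} : Function.Surjective (pmk w) := (wcon w).mk'_surjective

def pstar {w : List (Y ⊕ Y)} (x : PM w) : PM w :=
  Con.liftOn (c := wcon w) x (fun a => pmk w (invw a)) (fun _ _ h => pmk_eq.2 (wcon_invw h))

theorem pstar_mk {w : List (Y ⊕ Y)} (a : FreeMonoid (Y ⊕ Y)) :
    pstar (pmk w a) = pmk w (invw a) := rfl

instance (w : List (Y ⊕ Y)) : StarMul (PM w) where
  star := pstar
  star_involutive x := by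
    obtain ⟨a, rfl⟩ := pmk_surj x
    rw [pstar_mk, pstar_mk, invw_invw]
  star_mul x y := by
    obtain ⟨a, rfl⟩ := pmk_surj x
    obtain ⟨b, rfl⟩ := pmk_surj y
    rw [← map_mul, pstar_mk, pstar_mk, pstar_mk, invw_mul, map_mul]

theorem star_pmk {w : List (Y ⊕ Y)} (a : FreeMonoid (Y ⊕ Y)) :
    star (pmk w a) = pmk w (invw a) := rfl

instance (w : List (Y ⊕ Y)) : IsInv (PM w) where
  reg x := by
    obtain ⟨a, rfl⟩ := pmk_surj x
    rw [star_pmk, ← map_mul, ← map_mul, pmk_eq]
    exact wcon_of (Or.inl ⟨a, rfl, rfl⟩)
  comm x y := by
    obtain ⟨a, rfl⟩ := pmk_surj x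
    obtain ⟨b, rfl⟩ := pmk_surj y
    rw [star_pmk, star_pmk, ← map_mul, ← map_mul, ← map_mul, ← map_mul, pmk_eq]
    exact wcon_of (Or.inr (Or.inl ⟨a, b, rfl, rfl⟩))

theorem pmk_rel (w : List (Y ⊕ Y)) : pmk w (FreeMonoid.ofList w) = 1 := by
  rw [← map_one (pmk w), pmk_eq]
  exact wcon_of (Or.inr (Or.inr ⟨rfl, rfl⟩))

/-- Reading a word in a deterministic graph. -/
def run {L V : Type} (step : L → V → Option V) : List L → V → Option V
  | [], v => some v
  | l :: u, v => (step l v).bind (run step u)

@[simp] theorem run_nil {L V : Type} (step : L → V → Option V) (v : V) :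
    run step [] v = some v := rfl

@[simp] theorem run_cons {L V : Type} (step : L → V → Option V) (l : L) (u : List L) (v : V) :
    run step (l :: u) v = (step l v).bind (run step u) := rfl

theorem run_append {L V : Type} (step : L → V → Option V) (u u' : List L) (v : V) :
    run step (u ++ u') v = (run step u v).bind (run step u') := by
  induction u generalizing v with
  | nil => simp
  | cons l u ih =>
    simp only [List.cons_append, run_cons]
    cases step l v with
    | none => simp
    | some v' => simp [ih]

theorem run_map {L L' V : Type} (step : L → V → Option V) (f : L' → L) (u : List L') (v : V) :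
    run (fun l => step (f l)) u v = run step (u.map f) v := by
  induction u generalizing v with
  | nil => simp
  | cons l u ih =>
    simp only [List.map_cons, run_cons]
    cases step (f l) v with
    | none => simp
    | some v' => simp [ih]

theorem run_eq_foldl {L V : Type} (step : L → V → Option V) (u : List L) (o : Option V) :
    o.bind (run step u) = u.foldl (fun o l => o.bind (step l)) o := by
  induction u generalizing o with
  | nil => cases o <;> simp
  | cons l u ih =>
    rw [List.foldl_cons, ← ih]
    cases o <;> simp

/-- An inverse graph on the valid vertices. -/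
structure InvGraph {V : Type} (step : Y ⊕ Y → V → Option V) (Valid : V → Prop) : Prop where
  valid : ∀ l v v', Valid v → step l v = some v' → Valid v'
  inv : ∀ l v v', Valid v → step l v = some v' → step l.swap v' = some v

theorem InvGraph.run_valid {V : Type} {step : Y ⊕ Y → V → Option V} {Valid : V → Prop}
    (G : InvGraph step Valid) {u : List (Y ⊕ Y)} {v v' : V} (hv : Valid v)
    (h : run step u v = some v') : Valid v' ∧ run step (invl u) v' = some v := by
  induction u generalizing v with
  | nil =>
    simp only [run_nil, Option.some.injEq] at h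
    subst h
    exact ⟨hv, rfl⟩
  | cons l u ih =>
    rw [run_cons] at h
    cases h1 : step l v with
    | none => simp [h1] at h
    | some v1 =>
      rw [h1, Option.bind_some] at h
      obtain ⟨h2, h3⟩ := ih (G.valid l v v1 hv h1) h
      refine ⟨h2, ?_⟩
      rw [invl_cons, run_append, h3]
      simp [G.inv l v v1 hv h1]

theorem InvGraph.run_idem {V : Type} {step : Y ⊕ Y → V → Option V} {Valid : V → Prop}
    (G : InvGraph step Valid) (u : List (Y ⊕ Y)) {v : V} (hv : Valid v) :
    run step (u ++ invl u) v = if (run step u v).isSome then some v else none := by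
  rw [run_append]
  cases h : run step u v with
  | none => simp
  | some v' => simp [(G.run_valid hv h).2]

theorem InvGraph.sound {V : Type} {step : Y ⊕ Y → V → Option V} {Valid : V → Prop}
    (G : InvGraph step Valid) {w : List (Y ⊕ Y)} (hw : ∀ v, Valid v → run step w v = some v)
    {a b : FreeMonoid (Y ⊕ Y)} (h : wcon w a b) :
    ∀ v, Valid v → run step a.toList v = run step b.toList v := by
  induction h with
  | of a b h =>
    intro v hv
    rcases h with ⟨u, rfl, rfl⟩ | ⟨u, u', rfl, rfl⟩ | ⟨rfl, rfl⟩
    · change run step (b.toList ++ invl b.toList ++ b.toList) v = _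
      rw [run_append, G.run_idem _ hv]
      cases h : run step b.toList v <;> simp [h]
    · change run step ((u.toList ++ invl u.toList) ++ (u'.toList ++ invl u'.toList)) v =
        run step ((u'.toList ++ invl u'.toList) ++ (u.toList ++ invl u.toList)) v
      rw [run_append, run_append step (u'.toList ++ invl u'.toList), G.run_idem _ hv,
        G.run_idem _ hv]
      by_cases h1 : (run step u.toList v).isSome <;> by_cases h2 : (run step u'.toList v).isSome <;>
        simp [h1, h2, G.run_idem _ hv]
    · exact hw v hv
  | refl a => intro v _; rfl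
  | symm _ ih => intro v hv; exact (ih v hv).symm
  | trans _ _ ih1 ih2 => intro v hv; exact (ih1 v hv).trans (ih2 v hv)
  | mul _ _ ih1 ih2 =>
    intro v hv
    rw [FreeMonoid.toList_mul, FreeMonoid.toList_mul, run_append, run_append, ih1 v hv]
    rename_i _ x _ _ _ _
    cases h : run step x.toList v with
    | none => simp
    | some v' => simp [ih2 v' (G.run_valid hv h).1]

end Presented

end Pool.Agent.P.MP_874ce0_al
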