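import Pool.Agent.P.MP_874ce0_al.Words
import Pool.Agent.P.MP_874ce0_al.InvMon

/-! The two kinds of components of the Schuetzenberger graph of the identity: the Cayley graph of
the one-relator group (normal forms) and rational subtrees of the Cayley tree of the free group. -/

set_option autoImplicit false

namespace Pool.Agent.P.MP_874ce0_al

/-! ### Integers coded by naturals -/

def up (n : ℕ) : ℕ := if n % 2 = 0 then n + 2 else n - 2

def dn (n : ℕ) : ℕ := if n % 2 = 1 then n + 2 else if n = 0 then 1 else n - 2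

def val (n : ℕ) : ℤ := if n % 2 = 0 then (n / 2 : ℕ) else -((n + 1) / 2 : ℕ)

theorem dn_up (n : ℕ) : dn (up n) = n := by
  unfold dn up
  split_ifs <;> first | omega | simp_all

theorem up_dn (n : ℕ) : up (dn n) = n := by
  unfold dn up
  split_ifs <;> first | omega | simp_all

theorem val_up (n : ℕ) : val (up n) = val n + 1 := by
  unfold val up
  split_ifs <;> omega

theorem val_dn (n : ℕ) : val (dn n) = val n - 1 := by
  unfold val dn
  split_ifs <;> first | omega | simp_all

theorem val_zero : val 0 = 0 := rfl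

/-! ### Normal forms in the group -/

abbrev NF := List (Bool × ℕ) × ℕ × ℕ

def zf (g : NF) : NF :=
  if g.2.1 = 0 ∧ g.1.head?.map Prod.fst = some false then (g.1.tail, g.2.2, g.1.headI.2)
  else ((true, g.2.1) :: g.1, g.2.2, 0)

def zb (g : NF) : NF :=
  if g.2.2 = 0 ∧ g.1.head?.map Prod.fst = some true then (g.1.tail, g.1.headI.2, g.2.1)
  else ((false, g.2.2) :: g.1, 0, g.2.1)

def stepG : AL → NF → NF
  | Sum.inl false, g => (g.1, up g.2.1, g.2.2)
  | Sum.inr false, g => (g.1, dn g.2.1, g.2.2)
  | Sum.inl true, g => zf g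
  | Sum.inr true, g => zb g

def ValidG (g : NF) : Prop := List.IsChain (fun e f : Bool × ℕ => e.1 ≠ f.1 → e.2 ≠ 0) g.1

theorem zf_valid {g : NF} (h : ValidG g) : ValidG (zf g) := by
  obtain ⟨st, x, y⟩ := g
  unfold zf ValidG at *
  split_ifs with hc
  · exact h.tail
  · rcases st with _ | ⟨⟨b, k⟩, st⟩
    · simp
    · refine List.IsChain.cons_cons ?_ h
      cases b <;> simp_all

theorem zb_valid {g : NF} (h : ValidG g) : ValidG (zb g) := by
  obtain ⟨st, x, y⟩ := g
  unfold zb ValidG at *
  split_ifs with hc
  · exact h.tail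
  · rcases st with _ | ⟨⟨b, k⟩, st⟩
    · simp
    · refine List.IsChain.cons_cons ?_ h
      cases b <;> simp_all

theorem stepG_valid (l : AL) {g : NF} (h : ValidG g) : ValidG (stepG l g) := by
  rcases l with (_ | _) | (_ | _)
  · exact h
  · exact zf_valid h
  · exact h
  · exact zb_valid h

/-- Conjugating a change of the first counter by `z` changes the second counter. -/
theorem zb_zf (f : ℕ → ℕ) {g : NF} (h : ValidG g) :
    zb ((zf g).1, f (zf g).2.1, (zf g).2.2) = (g.1, g.2.1, f g.2.2) := by
  obtain ⟨st, x, y⟩ := g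
  by_cases hc : x = 0 ∧ st.head?.map Prod.fst = some false
  · rcases st with _ | ⟨⟨b, k⟩, st⟩
    · simp at hc
    · obtain ⟨rfl, hb⟩ := hc
      obtain rfl : b = false := by simpa using hb
      have hn : ¬ (k = 0 ∧ st.head?.map Prod.fst = some true) := by
        rintro ⟨rfl, h2⟩
        rcases st with _ | ⟨⟨b', k'⟩, st⟩
        · simp at h2
        · obtain rfl : b' = true := by simpa using h2
          have := (List.isChain_cons_cons.1 h).1
          simp at this
      simp only [zf, zb, List.head?_cons, Option.map_some, and_self, if_true, List.tail_cons,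
        List.headI_cons, hn, if_false]
  · simp only [zf, zb, hc, if_false, List.head?_cons, Option.map_some, and_self, if_true,
      List.tail_cons, List.headI_cons]

theorem zf_zb {g : NF} (h : ValidG g) : zf (zb g) = g := by
  obtain ⟨st, x, y⟩ := g
  by_cases hc : y = 0 ∧ st.head?.map Prod.fst = some true
  · rcases st with _ | ⟨⟨b, k⟩, st⟩
    · simp at hc
    · obtain ⟨rfl, hb⟩ := hc
      obtain rfl : b = true := by simpa using hb
      have hn : ¬ (k = 0 ∧ st.head?.map Prod.fst = some false) := by
        rintro ⟨rfl, h2⟩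
        rcases st with _ | ⟨⟨b', k'⟩, st⟩
        · simp at h2
        · obtain rfl : b' = false := by simpa using h2
          have := (List.isChain_cons_cons.1 h).1
          simp at this
      simp only [zf, zb, List.head?_cons, Option.map_some, and_self, if_true, List.tail_cons,
        List.headI_cons, hn, if_false]
  · simp only [zf, zb, hc, if_false, List.head?_cons, Option.map_some, and_self, if_true,
      List.tail_cons, List.headI_cons]

theorem stepG_swap (l : AL) {g : NF} (h : ValidG g) : stepG l.swap (stepG l g) = g := by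
  rcases l with (_ | _) | (_ | _)
  · simp [stepG, dn_up]
  · exact zb_zf id h
  · simp [stepG, up_dn]
  · exact zf_zb h

theorem stepG_relw {g : NF} (h : ValidG g) : relw.foldl (fun g l => stepG l g) g = g := by
  obtain ⟨st, x, y⟩ := g
  have h1 : ValidG (st, up x, y) := h
  have h2 : ValidG (st, dn (up x), up y) := h
  simp only [relw, List.foldl_cons, List.foldl_nil, stepG]
  rw [zb_zf up h1]
  simp only
  rw [zb_zf dn h2]
  simp [dn_up]

def evSt {G : Type} [Group G] (A Z : G) : List (Bool × ℕ) → G
  | [] => 1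
  | (true, k) :: st => evSt A Z st * A ^ val k * Z
  | (false, k) :: st => evSt A Z st * (Z * A * Z⁻¹) ^ val k * Z⁻¹

def evNF {G : Type} [Group G] (A Z : G) (g : NF) : G :=
  evSt A Z g.1 * A ^ val g.2.1 * (Z * A * Z⁻¹) ^ val g.2.2

theorem evNF_step {G : Type} [Group G] {A Z : G} (hc : Commute A (Z * A * Z⁻¹)) (l : AL)
    (g : NF) : evNF A Z (stepG l g) = evNF A Z g * evG A Z l := by
  obtain ⟨st, x, y⟩ := g
  have conj : ∀ k : ℤ, (Z * A * Z⁻¹) ^ k = Z * A ^ k * Z⁻¹ := fun k => by simp
  rcases l with (_ | _) | (_ | _)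
  · simp only [evNF, stepG, evG, val_up]
    rw [mul_assoc _ _ A, ← (hc.zpow_right _).eq, zpow_add_one]
    simp only [mul_assoc]
  · simp only [evNF, stepG, evG, zf]
    split_ifs with h
    · rcases st with _ | ⟨⟨b, k⟩, st⟩
      · simp at h
      · obtain ⟨rfl, hb⟩ := h
        obtain rfl : b = false := by simpa using hb
        simp only [List.tail_cons, List.headI_cons, evSt, val_zero, zpow_zero, mul_one]
        rw [mul_assoc (evSt A Z st), (hc.zpow_zpow _ _).eq, conj (val y)]
        simp [mul_assoc]
    · simp only [evSt, val_zero, zpow_zero, mul_one, conj]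
      simp [mul_assoc]
  · simp only [evNF, stepG, evG, val_dn]
    rw [mul_assoc _ _ A⁻¹, ← (hc.inv_left.zpow_right _).eq, zpow_sub_one]
    simp only [mul_assoc]
  · simp only [evNF, stepG, evG, zb]
    split_ifs with h
    · rcases st with _ | ⟨⟨b, k⟩, st⟩
      · simp at h
      · obtain ⟨rfl, hb⟩ := h
        obtain rfl : b = true := by simpa using hb
        simp only [List.tail_cons, List.headI_cons, evSt, val_zero, zpow_zero, mul_one, conj]
        simp [mul_assoc]
    · simp only [evSt, val_zero, zpow_zero, mul_one]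
      rw [mul_assoc (evSt A Z st) (A ^ val x), (hc.zpow_zpow _ _).eq, conj (val x)]
      simp [mul_assoc]

/-! ### Rational trees -/

variable {Q : Type} (δ : Q → AL → Q → Prop)

/-- Paths of the automaton whose label is freely trivial. -/
inductive Eps : Q → Q → Prop
  | refl (q : Q) : Eps q q
  | trans {p q r : Q} : Eps p q → Eps q r → Eps p r
  | step {p p1 p2 q : Q} {x : AL} : δ p x p1 → Eps p1 p2 → δ p2 x.swap q → Eps p q

def nxt (x : AL) (S : Set Q) : Set Q := {q | ∃ p1 ∈ S, ∃ p2, δ p1 x p2 ∧ Eps δ p2 q}

/-- States in which the vertex `v` (a reversed reduced word) is reached from `q0`. -/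
def marks (q0 : Q) (v : List AL) : Set Q := v.foldr (nxt δ) {q | Eps δ q0 q}

theorem marks_nil (q0 : Q) : marks δ q0 [] = {q | Eps δ q0 q} := rfl

theorem marks_cons (q0 : Q) (x : AL) (v : List AL) :
    marks δ q0 (x :: v) = nxt δ x (marks δ q0 v) := rfl

variable {δ}

theorem marks_eps {q0 p q : Q} {v : List AL} (h : p ∈ marks δ q0 v) (e : Eps δ p q) :
    q ∈ marks δ q0 v := by
  cases v with
  | nil => exact Eps.trans h e
  | cons x v =>
    obtain ⟨p1, h1, p2, h2, h3⟩ := h
    exact ⟨p1, h1, p2, h2, h3.trans e⟩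

variable (δ)

open Classical in
noncomputable def stepT (x : AL) (p : Q × List AL) : Option (Q × List AL) :=
  if p.2.head? = some x.swap then some (p.1, p.2.tail)
  else if (marks δ p.1 (x :: p.2)).Nonempty then some (p.1, x :: p.2) else none

def ValidT (p : Q × List AL) : Prop :=
  List.IsChain (fun x y : AL => y ≠ x.swap) p.2 ∧ (marks δ p.1 p.2).Nonempty

variable {δ}

theorem stepT_cases {x : AL} {p p' : Q × List AL} (h : stepT δ x p = some p') :
    (p = (p'.1, x.swap :: p'.2)) ∨
      (p.2.head? ≠ some x.swap ∧ (marks δ p.1 (x :: p.2)).Nonempty ∧ p' = (p.1, x :: p.2)) := by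
  obtain ⟨q, v⟩ := p
  unfold stepT at h
  split_ifs at h with h1 h2
  · left
    obtain rfl := Option.some.inj h
    cases v with
    | nil => simp at h1
    | cons y v =>
      obtain rfl : y = x.swap := by simpa using h1
      rfl
  · exact Or.inr ⟨h1, h2, (Option.some.inj h).symm⟩

theorem stepT_valid {x : AL} {p p' : Q × List AL} (hp : ValidT δ p) (h : stepT δ x p = some p') :
    ValidT δ p' ∧ stepT δ x.swap p' = some p ∧ p'.1 = p.1 := by
  rcases stepT_cases h with rfl | ⟨h1, h2, rfl⟩
  · obtain ⟨q, v⟩ := p'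
    obtain ⟨hc, hm⟩ := hp
    refine ⟨⟨hc.tail, ?_⟩, ?_, rfl⟩
    · obtain ⟨_, p1, h1, -⟩ := hm
      exact ⟨p1, h1⟩
    · have : v.head? ≠ some x.swap.swap := by
        cases v with
        | nil => simp
        | cons y v =>
          have := (List.isChain_cons_cons.1 hc).1
          simpa using this
      unfold stepT
      rw [if_neg this, if_pos hm]
  · obtain ⟨q, v⟩ := p
    refine ⟨⟨?_, h2⟩, ?_, rfl⟩
    · cases v with
      | nil => simp
      | cons y v =>
        refine List.IsChain.cons_cons ?_ hp.1
        simpa using h1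
    · unfold stepT
      simp

theorem stepT_rule {x : AL} {p : Q × List AL} {q q' : Q} (hq : q ∈ marks δ p.1 p.2)
    (h : δ q x q') : ∃ p', stepT δ x p = some p' ∧ q' ∈ marks δ p'.1 p'.2 := by
  obtain ⟨q0, v⟩ := p
  unfold stepT
  by_cases h1 : v.head? = some x.swap
  · rw [if_pos h1]
    refine ⟨_, rfl, ?_⟩
    cases v with
    | nil => simp at h1
    | cons y v =>
      obtain rfl : y = x.swap := by simpa using h1
      obtain ⟨p1, h1, p2, h2, h3⟩ := hq
      exact marks_eps h1 (Eps.step h2 h3 (by simpa using h))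
  · have : q' ∈ marks δ q0 (x :: v) := ⟨q, hq, q', h, Eps.refl _⟩
    rw [if_neg h1, if_pos ⟨q', this⟩]
    exact ⟨_, rfl, this⟩

/-! ### The relations in an inverse monoid -/

variable (δ) in
structure Rels {M : Type} [Monoid M] [StarMul M] (α : AL → M) (τ : Option Q → M) : Prop where
  swap : ∀ x, α x.swap = star (α x)
  ru_t : ∀ t, RU (τ t)
  ru_s : ∀ x, RU (τ none * α x * star (τ none))
  ru_d : ∀ p x q, δ p x q → RU (τ (some p) * α x * star (τ (some q)))
  rel : τ none * (relw.map α).prod * star (τ none) = 1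

variable {M : Type} [Monoid M] [StarMul M] [IsInv M] {α : AL → M} {τ : Option Q → M}

omit [StarMul M] [IsInv M] in
theorem evW_tau {A Z : Mˣ} {s : M} (h : ∀ x, ((evG A Z x : Mˣ) : M) * s = s * α x)
    (w : List AL) : ((evW A Z w : Mˣ) : M) * s = s * (w.map α).prod := by
  induction w with
  | nil => simp [evW]
  | cons x w ih =>
    have : evW A Z (x :: w) = evG A Z x * evW A Z w := by simp [evW]
    rw [this, Units.val_mul, mul_assoc, ih, ← mul_assoc, h, List.map_cons, List.prod_cons,
      mul_assoc]

theorem Rels.units (h : Rels δ α τ) : ∃ A Z : Mˣ, Commute A (Z * A * Z⁻¹) ∧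
    ∀ x, ((evG A Z x : Mˣ) : M) * τ none = τ none * α x := by
  have h1 : ∀ x, τ none * α x * star (τ none) * (τ none * α x.swap * star (τ none)) = 1 := by
    intro x
    have := h.ru_s x
    unfold RU at this
    rw [← this, h.swap]
    simp only [star_mul, star_star, mul_assoc]
  have h2 : ∀ x, τ none * α x.swap * star (τ none) * (τ none * α x * star (τ none)) = 1 := by
    intro x
    simpa using h1 x.swap
  let φ : AL → Mˣ := fun x => ⟨τ none * α x * star (τ none),
    τ none * α x.swap * star (τ none), h1 x, h2 x⟩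
  have h3 : ∀ x, ((evG (φ la) (φ lz) x : Mˣ) : M) * τ none = τ none * α x := by
    intro x
    rcases x with (_ | _) | (_ | _) <;> exact (h.ru_s _).absorb
  refine ⟨φ la, φ lz, ?_, h3⟩
  have h4 : evW (φ la) (φ lz) relw = 1 := by
    apply Units.ext
    have h5 := h.rel
    have h6 := h.ru_t none
    unfold RU at h6
    rw [← evW_tau h3, mul_assoc, h6, mul_one] at h5
    exact h5
  generalize φ la = A at h4
  generalize φ lz = Z at h4
  simp only [evW, relw, evG, List.map, List.prod_cons, List.prod_nil, mul_one] at h4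
  rw [Commute, SemiconjBy, ← mul_inv_eq_one, ← h4]
  simp [mul_assoc]

theorem Rels.eps (h : Rels δ α τ) {p q : Q} (e : Eps δ p q) :
    RU (τ (some p) * star (τ (some q))) := by
  induction e with
  | refl q =>
    have := h.ru_t (some q)
    unfold RU at this
    rw [this]
    exact RU.one
  | trans _ _ ih1 ih2 => exact ih1.chain ih2
  | @step p p1 p2 q x h1 _ h2 ih =>
    have a1 := (h.ru_d _ _ _ h1).chain ih
    have a2 := h.ru_d _ _ _ h2
    rw [mul_assoc] at a2
    have a3 := a1.chain a2
    rwa [← mul_assoc, h.swap, a1.left.absorb'] at a3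

def muT (α : AL → M) (τ : Option Q → M) (q0 : Q) : List AL → M
  | [] => τ (some q0)
  | x :: v => muT α τ q0 v * α x

theorem Rels.ru_marks (h : Rels δ α τ) {q0 q : Q} {v : List AL} (hq : q ∈ marks δ q0 v) :
    RU (muT α τ q0 v * star (τ (some q))) := by
  induction v generalizing q with
  | nil => exact h.eps hq
  | cons x v ih =>
    obtain ⟨p1, h1, p2, h2, h3⟩ := hq
    have a1 := (h.ru_d _ _ _ h2).chain (h.eps h3)
    rw [mul_assoc] at a1
    have a2 := (ih h1).chain a1
    rwa [← mul_assoc] at a2

theorem Rels.muT_step (h : Rels δ α τ) {x : AL} {p p' : Q × List AL} (hp : ValidT δ p)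
    (e : stepT δ x p = some p') : muT α τ p.1 p.2 * α x = muT α τ p'.1 p'.2 := by
  rcases stepT_cases e with rfl | ⟨-, -, rfl⟩
  · obtain ⟨q, hq⟩ := hp.2
    have := (h.ru_marks hq).left
    simp only [muT, h.swap] at this ⊢
    exact this.absorb
  · rfl

theorem Rels.path (h : Rels δ α τ) {p q : Q} {w : List AL} (e : Path δ p w q) :
    RU (τ (some p) * (w.map α).prod * star (τ (some q))) := by
  induction e with
  | nil q => simpa using h.eps (Eps.refl q)
  | cons h1 _ ih =>
    rw [mul_assoc] at ih
    have := (h.ru_d _ _ _ h1).chain ih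
    simpa [mul_assoc] using this

end Pool.Agent.P.MP_874ce0_al
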