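import Pool.Agent.P.MP_874ce0_al.Comp

/-! The Schuetzenberger graph of the identity as a tree of components. -/

set_option autoImplicit false

namespace Pool.Agent.P.MP_874ce0_al

variable {Q : Type} (δ : Q → AL → Q → Prop)

/-- Generators: `a`, `z`, `s` and one letter for each state. -/
abbrev GX (Q : Type) := Bool ⊕ Option Q

abbrev Pos (Q : Type) := NF ⊕ (Q × List AL)

noncomputable def stepP (x : AL) : Pos Q → Option (Pos Q)
  | Sum.inl g => some (Sum.inl (stepG x g))
  | Sum.inr p => (stepT δ x p).map Sum.inr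

def typ : Pos Q → Option Q
  | Sum.inl _ => none
  | Sum.inr p => some p.1

def seed : Option Q → Pos Q
  | none => Sum.inl ([], 0, 0)
  | some q => Sum.inr (q, [])

def mark : Pos Q → Option Q → Prop
  | Sum.inl _, t => t = none
  | Sum.inr p, t => ∃ q ∈ marks δ p.1 p.2, t = some q

def ValidP : Pos Q → Prop
  | Sum.inl g => ValidG g
  | Sum.inr p => ValidT δ p

theorem typ_seed (t : Option Q) : typ (seed t) = t := by cases t <;> rfl

theorem mark_seed (t : Option Q) : mark δ (seed t) t := by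
  cases t with
  | none => rfl
  | some q => exact ⟨q, Eps.refl q, rfl⟩

theorem valid_seed (t : Option Q) : ValidP δ (seed t) := by
  cases t with
  | none => simp [seed, ValidP, ValidG]
  | some q => exact ⟨by simp, q, Eps.refl q⟩

variable {δ}

theorem stepP_valid {x : AL} {p p' : Pos Q} (hp : ValidP δ p) (h : stepP δ x p = some p') :
    ValidP δ p' ∧ stepP δ x.swap p' = some p ∧ typ p' = typ p := by
  rcases p with g | p
  · obtain rfl := Option.some.inj h
    exact ⟨stepG_valid x hp, by simp [stepP, stepG_swap x hp], rfl⟩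
  · obtain ⟨p1, h1, rfl⟩ := Option.map_eq_some_iff.1 h
    obtain ⟨h2, h3, h4⟩ := stepT_valid hp h1
    exact ⟨h2, by simp [stepP, h3], by simp [typ, h4]⟩

theorem stepP_rule_s (x : AL) {p : Pos Q} (h : mark δ p none) :
    ∃ p', stepP δ x p = some p' ∧ mark δ p' none := by
  rcases p with g | p
  · exact ⟨_, rfl, rfl⟩
  · obtain ⟨q, -, h⟩ := h
    simp at h

theorem stepP_rule_d {x : AL} {p : Pos Q} {q q' : Q} (h : mark δ p (some q)) (hd : δ q x q') :
    ∃ p', stepP δ x p = some p' ∧ mark δ p' (some q') := by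
  rcases p with g | p
  · simp [mark] at h
  · obtain ⟨q1, h1, h2⟩ := h
    obtain rfl := Option.some.inj h2
    obtain ⟨p', h3, h4⟩ := stepT_rule h1 hd
    exact ⟨Sum.inr p', by simp [stepP, h3], q', h4, rfl⟩

theorem run_stepP_inl (w : List AL) (g : NF) :
    run (stepP δ) w (Sum.inl g) = some (Sum.inl (w.foldl (fun g l => stepG l g) g)) := by
  induction w generalizing g with
  | nil => rfl
  | cons x w ih => simp [stepP, ih]

theorem stepP_rel {p : Pos Q} (hp : ValidP δ p) (h : mark δ p none) :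
    run (stepP δ) relw p = some p := by
  rcases p with g | p
  · rw [run_stepP_inl, stepG_relw hp]
  · obtain ⟨q, -, h⟩ := h
    simp at h

variable (δ)

abbrev Vx (Q : Type) := List (Pos Q × Option (Option Q))

noncomputable def stepA (x : AL) : Vx Q → Option (Vx Q)
  | (p, none) :: rest => (stepP δ x p).map (fun p' => (p', none) :: rest)
  | _ => none

open Classical in
noncomputable def fwd (t : Option Q) : Vx Q → Vx Q
  | [] => [(seed t, none)]
  | (p, o) :: rest => if o = some t then (p, none) :: rest else (seed t, none) :: (p, o) :: rest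

open Classical in
noncomputable def bwd (t : Option Q) : Vx Q → Option (Vx Q)
  | (p, none) :: rest =>
    if p = seed t then some rest else if mark δ p t then some ((p, some t) :: rest) else none
  | _ => none

noncomputable def stepV : GX Q ⊕ GX Q → Vx Q → Option (Vx Q)
  | Sum.inl (Sum.inl b), v => stepA δ (Sum.inl b) v
  | Sum.inr (Sum.inl b), v => stepA δ (Sum.inr b) v
  | Sum.inl (Sum.inr t), v => some (fwd t v)
  | Sum.inr (Sum.inr t), v => bwd δ t v

def top : Vx Q → Option (Option Q)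
  | [] => none
  | (_, o) :: _ => o

def ValidV : Vx Q → Prop
  | [] => True
  | (p, o) :: rest => ValidP δ p ∧ (∀ t, o = some t → mark δ p t ∧ p ≠ seed t) ∧
      top rest ≠ some (typ p) ∧ ValidV rest

def emb : AL → GX Q ⊕ GX Q := Sum.map Sum.inl Sum.inl

abbrev tt (t : Option Q) : GX Q ⊕ GX Q := Sum.inl (Sum.inr t)

abbrev ti (t : Option Q) : GX Q ⊕ GX Q := Sum.inr (Sum.inr t)

theorem stepV_emb (x : AL) (v : Vx Q) : stepV δ (emb x) v = stepA δ x v := by
  rcases x with b | b <;> rfl

theorem stepV_tt (t : Option Q) (v : Vx Q) : stepV δ (tt t) v = some (fwd t v) := rfl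

theorem stepV_ti (t : Option Q) (v : Vx Q) : stepV δ (ti t) v = bwd δ t v := rfl

theorem emb_swap (x : AL) : (emb x : GX Q ⊕ GX Q).swap = emb x.swap := by
  rcases x with b | b <;> rfl

variable {δ}

theorem stepA_cases {x : AL} {v v' : Vx Q} (h : stepA δ x v = some v') :
    ∃ p p' rest, v = (p, none) :: rest ∧ v' = (p', none) :: rest ∧ stepP δ x p = some p' := by
  rcases v with _ | ⟨⟨p, _ | o⟩, rest⟩
  · simp [stepA] at h
  · obtain ⟨p', h1, rfl⟩ := Option.map_eq_some_iff.1 h
    exact ⟨p, p', rest, rfl, rfl, h1⟩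
  · simp [stepA] at h

theorem stepA_valid {x : AL} {v v' : Vx Q} (hv : ValidV δ v) (h : stepA δ x v = some v') :
    ValidV δ v' ∧ stepA δ x.swap v' = some v := by
  obtain ⟨p, p', rest, rfl, rfl, h1⟩ := stepA_cases h
  obtain ⟨h2, -, h3, h4⟩ := hv
  obtain ⟨h5, h6, h7⟩ := stepP_valid h2 h1
  exact ⟨⟨h5, by simp, by rwa [h7], h4⟩, by simp [stepA, h6]⟩

theorem fwd_cases (t : Option Q) (v : Vx Q) :
    (∃ p rest, v = (p, some t) :: rest ∧ fwd t v = (p, none) :: rest) ∨
      (top v ≠ some t ∧ fwd t v = (seed t, none) :: v) := by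
  rcases v with _ | ⟨⟨p, o⟩, rest⟩
  · exact Or.inr ⟨by simp [top], rfl⟩
  · by_cases h : o = some t
    · subst h
      exact Or.inl ⟨p, rest, rfl, by simp [fwd]⟩
    · exact Or.inr ⟨h, by simp [fwd, h]⟩

theorem fwd_valid (t : Option Q) {v : Vx Q} (hv : ValidV δ v) :
    ValidV δ (fwd t v) ∧ bwd δ t (fwd t v) = some v ∧
      ∃ p rest, fwd t v = (p, none) :: rest ∧ mark δ p t := by
  rcases fwd_cases t v with ⟨p, rest, rfl, e⟩ | ⟨h, e⟩
  · obtain ⟨h1, h2, h3, h4⟩ := hv
    obtain ⟨h5, h6⟩ := h2 t rfl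
    rw [e]
    exact ⟨⟨h1, by simp, h3, h4⟩, by simp [bwd, h5, h6], p, rest, rfl, h5⟩
  · rw [e]
    exact ⟨⟨valid_seed δ t, by simp, by rwa [typ_seed], hv⟩, by simp [bwd], _, _, rfl,
      mark_seed δ t⟩

theorem bwd_cases {t : Option Q} {v v' : Vx Q} (h : bwd δ t v = some v') :
    v = (seed t, none) :: v' ∨
      ∃ p rest, v = (p, none) :: rest ∧ v' = (p, some t) :: rest ∧ p ≠ seed t ∧ mark δ p t := by
  rcases v with _ | ⟨⟨p, _ | o⟩, rest⟩
  · simp [bwd] at h
  · simp only [bwd] at h
    split_ifs at h with h1 h2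
    · obtain rfl := Option.some.inj h
      exact Or.inl (by rw [h1])
    · exact Or.inr ⟨p, rest, rfl, (Option.some.inj h).symm, h1, h2⟩
  · simp [bwd] at h

theorem bwd_valid {t : Option Q} {v v' : Vx Q} (hv : ValidV δ v) (h : bwd δ t v = some v') :
    ValidV δ v' ∧ fwd t v' = v := by
  rcases bwd_cases h with rfl | ⟨p, rest, rfl, rfl, h1, h2⟩
  · obtain ⟨-, -, h3, h4⟩ := hv
    rw [typ_seed] at h3
    refine ⟨h4, ?_⟩
    rcases fwd_cases t v' with ⟨p, rest, rfl, -⟩ | ⟨-, e⟩
    · exact absurd rfl h3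
    · exact e
  · obtain ⟨h3, -, h4, h5⟩ := hv
    refine ⟨⟨h3, ?_, h4, h5⟩, by simp [fwd]⟩
    intro t' ht'
    obtain rfl := Option.some.inj ht'
    exact ⟨h2, h1⟩

theorem bwd_mark {t : Option Q} {p : Pos Q} (rest : Vx Q) (h : mark δ p t) :
    (bwd δ t ((p, none) :: rest)).isSome := by
  simp only [bwd]
  split_ifs <;> simp

theorem gamma_invGraph : InvGraph (stepV δ) (ValidV δ) := by
  have key : ∀ l v v', ValidV δ v → stepV δ l v = some v' →
      ValidV δ v' ∧ stepV δ l.swap v' = some v := by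
    intro l v v' hv h
    rcases l with (b | t) | (b | t)
    · exact stepA_valid hv h
    · obtain rfl := Option.some.inj h
      exact ⟨(fwd_valid t hv).1, (fwd_valid t hv).2.1⟩
    · exact stepA_valid hv h
    · obtain ⟨h1, h2⟩ := bwd_valid hv h
      exact ⟨h1, congrArg some h2⟩
  exact ⟨fun l v v' hv h => (key l v v' hv h).1, fun l v v' hv h => (key l v v' hv h).2⟩

variable (δ) in
/-- The words that are declared right units. -/
def Rule (β : List (GX Q ⊕ GX Q)) : Prop :=
  (∃ t, β = [tt t]) ∨ (∃ x, β = [tt none, emb x, ti none]) ∨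
    (∃ p x q, δ p x q ∧ β = [tt (some p), emb x, ti (some q)])

/-- The hidden relator. -/
def srel : List (GX Q ⊕ GX Q) := tt none :: (relw.map emb ++ [ti none])

theorem gamma_rule {β : List (GX Q ⊕ GX Q)} (hβ : Rule δ β) {v : Vx Q} (hv : ValidV δ v) :
    (run (stepV δ) β v).isSome := by
  rcases hβ with ⟨t, rfl⟩ | ⟨x, rfl⟩ | ⟨q, x, q', hd, rfl⟩
  · simp [stepV]
  · obtain ⟨-, -, p, rest, e, hm⟩ := fwd_valid none hv
    obtain ⟨p', h1, h2⟩ := stepP_rule_s x hm
    have := bwd_mark rest h2
    simp only [run_cons, stepV_tt, stepV_ti, Option.bind_some, e, stepV_emb, stepA, h1,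
      Option.map_some]
    obtain ⟨v', hv'⟩ := Option.isSome_iff_exists.1 this
    simp [hv']
  · obtain ⟨-, -, p, rest, e, hm⟩ := fwd_valid (some q) hv
    obtain ⟨p', h1, h2⟩ := stepP_rule_d hm hd
    have := bwd_mark rest h2
    simp only [run_cons, stepV_tt, stepV_ti, Option.bind_some, e, stepV_emb, stepA, h1,
      Option.map_some]
    obtain ⟨v', hv'⟩ := Option.isSome_iff_exists.1 this
    simp [hv']

theorem run_emb (w : List AL) (p : Pos Q) (rest : Vx Q) :
    run (stepV δ) (w.map emb) ((p, none) :: rest) =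
      (run (stepP δ) w p).map (fun p' => (p', none) :: rest) := by
  induction w generalizing p with
  | nil => rfl
  | cons x w ih =>
    simp only [List.map_cons, run_cons, stepV_emb, stepA]
    cases stepP δ x p with
    | none => rfl
    | some p' => simp [ih]

theorem gamma_srel {v : Vx Q} (hv : ValidV δ v) : run (stepV δ) srel v = some v := by
  obtain ⟨h1, h2, p, rest, e, hm⟩ := fwd_valid none hv
  rw [e] at h1 h2
  simp only [srel, run_cons, stepV, Option.bind_some, e, run_append, run_emb, stepP_rel h1.1 hm,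
    Option.map_some, h2, run_nil]

/-! ### Vertices are right units -/

variable {M : Type} [Monoid M] [StarMul M] [IsInv M] {α : AL → M} {τ : Option Q → M}

def gen (α : AL → M) (τ : Option Q → M) : GX Q ⊕ GX Q → M
  | Sum.inl (Sum.inl b) => α (Sum.inl b)
  | Sum.inr (Sum.inl b) => α (Sum.inr b)
  | Sum.inl (Sum.inr t) => τ t
  | Sum.inr (Sum.inr t) => star (τ t)

def muP (α : AL → M) (τ : Option Q → M) (A Z : Mˣ) : Pos Q → M
  | Sum.inl g => ((evNF A Z g : Mˣ) : M) * τ none
  | Sum.inr p => muT α τ p.1 p.2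

def piV (α : AL → M) (τ : Option Q → M) (A Z : Mˣ) : Vx Q → M
  | [] => 1
  | (p, none) :: rest => piV α τ A Z rest * muP α τ A Z p
  | (p, some t) :: rest => piV α τ A Z rest * (muP α τ A Z p * star (τ t))

omit [StarMul M] [IsInv M] in
theorem muP_seed (A Z : Mˣ) (t : Option Q) : muP α τ A Z (seed t) = τ t := by
  cases t with
  | none => simp [muP, seed, evNF, evSt, val_zero]
  | some q => rfl

theorem Rels.muP_mark (h : Rels δ α τ) (A Z : Mˣ) {p : Pos Q} {t : Option Q} (hm : mark δ p t) :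
    RU (muP α τ A Z p * star (τ t)) := by
  rcases p with g | p
  · obtain rfl : t = none := hm
    have := h.ru_t none
    unfold RU at this
    rw [muP, mul_assoc, this, mul_one]
    exact RU.unit _
  · obtain ⟨q, h1, rfl⟩ := hm
    exact h.ru_marks h1

theorem Rels.muP_step (h : Rels δ α τ) {A Z : Mˣ} (hc : Commute A (Z * A * Z⁻¹))
    (hA : ∀ x, ((evG A Z x : Mˣ) : M) * τ none = τ none * α x) {x : AL} {p p' : Pos Q}
    (hp : ValidP δ p) (e : stepP δ x p = some p') :
    muP α τ A Z p * α x = muP α τ A Z p' := by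
  rcases p with g | p
  · obtain rfl := Option.some.inj e
    rw [muP, muP, evNF_step hc, Units.val_mul, mul_assoc, mul_assoc, hA]
  · obtain ⟨p1, h1, rfl⟩ := Option.map_eq_some_iff.1 e
    exact h.muT_step hp h1

theorem Rels.piV_step (h : Rels δ α τ) {A Z : Mˣ} (hc : Commute A (Z * A * Z⁻¹))
    (hA : ∀ x, ((evG A Z x : Mˣ) : M) * τ none = τ none * α x) {l : GX Q ⊕ GX Q} {v v' : Vx Q}
    (hv : ValidV δ v) (e : stepV δ l v = some v') :
    piV α τ A Z v * gen α τ l = piV α τ A Z v' := by
  have kA : ∀ x, stepA δ x v = some v' → piV α τ A Z v * α x = piV α τ A Z v' := by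
    intro x e
    obtain ⟨p, p', rest, rfl, rfl, h1⟩ := stepA_cases e
    rw [piV, piV, mul_assoc, h.muP_step hc hA hv.1 h1]
  rcases l with (b | t) | (b | t)
  · exact kA _ e
  · obtain rfl := Option.some.inj e
    rcases fwd_cases t v with ⟨p, rest, rfl, e⟩ | ⟨-, e⟩
    · rw [e, piV, piV, gen, mul_assoc, (h.muP_mark A Z (hv.2.1 t rfl).1).absorb]
    · rw [e, piV, muP_seed, gen]
  · exact kA _ e
  · rcases bwd_cases e with rfl | ⟨p, rest, rfl, rfl, -, -⟩
    · have := h.ru_t t
      unfold RU at this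
      rw [piV, muP_seed, gen, mul_assoc, this, mul_one]
    · rw [piV, piV, gen, mul_assoc]

theorem Rels.loop_eq_one (h : Rels δ α τ) {u : List (GX Q ⊕ GX Q)}
    (e : run (stepV δ) u [] = some []) : (u.map (gen α τ)).prod = 1 := by
  obtain ⟨A, Z, hc, hA⟩ := h.units
  have key : ∀ (u : List (GX Q ⊕ GX Q)) v v', ValidV δ v → run (stepV δ) u v = some v' →
      piV α τ A Z v * (u.map (gen α τ)).prod = piV α τ A Z v' := by
    intro u
    induction u with
    | nil =>
      intro v v' _ e
      obtain rfl := Option.some.inj e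
      simp
    | cons l u ih =>
      intro v v' hv e
      rw [run_cons] at e
      obtain ⟨v1, e1, e2⟩ := Option.bind_eq_some_iff.1 e
      rw [List.map_cons, List.prod_cons, ← mul_assoc, h.piV_step hc hA hv e1,
        ih v1 v' (gamma_invGraph.valid _ _ _ hv e1) e2]
  simpa [piV] using key u [] [] trivial e

end Pool.Agent.P.MP_874ce0_al
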