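import Mathlib

/-! Relations generated from atoms by composition, union and iteration; simulation of register
programs by two integer counters. -/

set_option autoImplicit false

namespace Pool.Agent.P.MP_874ce0_al

/-- Relations generated from atomic ones. -/
inductive Gen {S : Type} (At : (S → S → Prop) → Prop) : (S → S → Prop) → Prop
  | atom {R : S → S → Prop} : At R → Gen At R
  | comp {R R' : S → S → Prop} : Gen At R → Gen At R' → Gen At (Relation.Comp R R')
  | union {R R' : S → S → Prop} : Gen At R → Gen At R' → Gen At (fun a b => R a b ∨ R' a b)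
  | star {R : S → S → Prop} : Gen At R → Gen At (Relation.ReflTransGen R)

theorem Gen.congr {S : Type} {At : (S → S → Prop) → Prop} {R R' : S → S → Prop} (h : Gen At R)
    (e : ∀ a b, R a b ↔ R' a b) : Gen At R' := by
  have : R = R' := by
    funext a b
    exact propext (e a b)
  exact this ▸ h

/-- `R'` simulates `R` along `enc`. -/
def Sim {S T : Type} (enc : T → S) (R' : S → S → Prop) (R : T → T → Prop) : Prop :=
  ∀ t s, R' (enc t) s ↔ ∃ t', s = enc t' ∧ R t t'

theorem Gen.sim {S T : Type} {A : (S → S → Prop) → Prop} {B : (T → T → Prop) → Prop}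
    (enc : T → S) (hat : ∀ R, B R → ∃ R', Gen A R' ∧ Sim enc R' R) {R : T → T → Prop}
    (h : Gen B R) : ∃ R', Gen A R' ∧ Sim enc R' R := by
  induction h with
  | atom h => exact hat _ h
  | comp _ _ ih1 ih2 =>
    obtain ⟨R1, g1, s1⟩ := ih1
    obtain ⟨R2, g2, s2⟩ := ih2
    refine ⟨_, g1.comp g2, fun t s => ⟨?_, ?_⟩⟩
    · rintro ⟨u, h1, h2⟩
      obtain ⟨t1, rfl, h3⟩ := (s1 _ _).1 h1
      obtain ⟨t2, rfl, h4⟩ := (s2 _ _).1 h2
      exact ⟨t2, rfl, t1, h3, h4⟩
    · rintro ⟨t2, rfl, t1, h1, h2⟩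
      exact ⟨enc t1, (s1 _ _).2 ⟨t1, rfl, h1⟩, (s2 _ _).2 ⟨t2, rfl, h2⟩⟩
  | union _ _ ih1 ih2 =>
    obtain ⟨R1, g1, s1⟩ := ih1
    obtain ⟨R2, g2, s2⟩ := ih2
    refine ⟨_, g1.union g2, fun t s => ⟨?_, ?_⟩⟩
    · rintro (h | h)
      · obtain ⟨t1, rfl, h1⟩ := (s1 _ _).1 h
        exact ⟨t1, rfl, Or.inl h1⟩
      · obtain ⟨t1, rfl, h1⟩ := (s2 _ _).1 h
        exact ⟨t1, rfl, Or.inr h1⟩
    · rintro ⟨t1, rfl, h | h⟩
      · exact Or.inl ((s1 _ _).2 ⟨t1, rfl, h⟩)
      · exact Or.inr ((s2 _ _).2 ⟨t1, rfl, h⟩)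
  | star _ ih =>
    obtain ⟨R1, g1, s1⟩ := ih
    refine ⟨_, g1.star, fun t s => ⟨fun h => ?_, ?_⟩⟩
    · induction h with
      | refl => exact ⟨t, rfl, Relation.ReflTransGen.refl⟩
      | tail _ h2 ih =>
        obtain ⟨t1, rfl, h1⟩ := ih
        obtain ⟨t2, rfl, h3⟩ := (s1 _ _).1 h2
        exact ⟨t2, rfl, h1.tail h3⟩
    · rintro ⟨t1, rfl, h⟩
      induction h with
      | refl => exact Relation.ReflTransGen.refl
      | tail _ h2 ih => exact ih.tail ((s1 _ _).2 ⟨_, rfl, h2⟩)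

/-! ### Two integer counters -/

def shift (d : ℤ × ℤ) (p q : ℤ × ℤ) : Prop := q = p + d

def tstX (p q : ℤ × ℤ) : Prop := p.1 = 0 ∧ q = p

def tstY (p q : ℤ × ℤ) : Prop := p.2 = 0 ∧ q = p

def At1 (R : ℤ × ℤ → ℤ × ℤ → Prop) : Prop :=
  R = shift (1, 0) ∨ R = shift (-1, 0) ∨ R = shift (0, 1) ∨ R = shift (0, -1) ∨
    R = tstX ∨ R = tstY

theorem gen_shift_add {d e : ℤ × ℤ} (hd : Gen At1 (shift d)) (he : Gen At1 (shift e)) :
    Gen At1 (shift (d + e)) := by
  refine (hd.comp he).congr (fun a b => ⟨?_, ?_⟩)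
  · rintro ⟨c, rfl, rfl⟩
    exact add_assoc _ _ _
  · rintro rfl
    exact ⟨a + d, rfl, (add_assoc _ _ _).symm⟩

theorem gen_shift (d : ℤ × ℤ) : Gen At1 (shift d) := by
  have h1 : Gen At1 (shift (1, 0)) := .atom (by simp [At1])
  have h2 : Gen At1 (shift (-1, 0)) := .atom (by simp [At1])
  have h3 : Gen At1 (shift (0, 1)) := .atom (by simp [At1])
  have h4 : Gen At1 (shift (0, -1)) := .atom (by simp [At1])
  have h0 : Gen At1 (shift (0, 0)) := by simpa using gen_shift_add h1 h2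
  have hx : ∀ x : ℤ, Gen At1 (shift (x, 0)) := by
    intro x
    induction x using Int.induction_on with
    | zero => exact h0
    | succ i ih => simpa using gen_shift_add ih h1
    | pred i ih => simpa [sub_eq_add_neg] using gen_shift_add ih h2
  have hy : ∀ y : ℤ, Gen At1 (shift (0, y)) := by
    intro y
    induction y using Int.induction_on with
    | zero => exact h0
    | succ i ih => simpa using gen_shift_add ih h3
    | pred i ih => simpa [sub_eq_add_neg] using gen_shift_add ih h4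
  simpa using gen_shift_add (hx d.1) (hy d.2)

theorem star_shift (d p q : ℤ × ℤ) :
    Relation.ReflTransGen (shift d) p q ↔ ∃ k : ℕ, q = p + k • d := by
  constructor
  · intro h
    induction h with
    | refl => exact ⟨0, by simp⟩
    | tail _ h2 ih =>
      obtain ⟨k, rfl⟩ := ih
      exact ⟨k + 1, by rw [h2, succ_nsmul, add_assoc]⟩
  · rintro ⟨k, rfl⟩
    induction k with
    | zero => simpa using Relation.ReflTransGen.refl
    | succ k ih => exact ih.tail (by rw [shift, succ_nsmul, add_assoc])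

/-! ### One natural number with affine steps -/

def aff (m i m' j : ℕ) (n n' : ℕ) : Prop := ∃ k, n = m * k + i ∧ n' = m' * k + j

def At2 (R : ℕ → ℕ → Prop) : Prop := ∃ m i m' j, R = aff m i m' j

def enc2 (n : ℕ) : ℤ × ℤ := (n, 0)

theorem sim2 (R : ℕ → ℕ → Prop) (h : At2 R) : ∃ R', Gen At1 R' ∧ Sim enc2 R' R := by
  obtain ⟨m, i, m', j, rfl⟩ := h
  have hX : Gen At1 tstX := .atom (by simp [At1])
  have hY : Gen At1 tstY := .atom (by simp [At1])
  refine ⟨_, (gen_shift (-m, m')).star.comp ((gen_shift (-i, j)).comp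
    (hX.comp ((gen_shift (1, -1)).star.comp hY))), fun n s => ⟨?_, ?_⟩⟩
  · rintro ⟨p1, h1, p2, h2, p3, ⟨h3, rfl⟩, p4, h4, h5, rfl⟩
    obtain ⟨k, rfl⟩ := (star_shift _ _ _).1 h1
    obtain ⟨l, rfl⟩ := (star_shift _ _ _).1 h4
    rw [shift] at h2
    subst h2
    simp only [enc2, Prod.smul_mk, nsmul_eq_mul, Prod.mk_add_mk] at h3 h5 ⊢
    refine ⟨l, ?_, k, ?_, ?_⟩
    · ext
      · simp only
        linarith
      · simp only
        linarith
    · have : (n : ℤ) = m * k + i := by linarith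
      exact_mod_cast this
    · have : (l : ℤ) = m' * k + j := by linarith
      exact_mod_cast this
  · rintro ⟨n', rfl, k, rfl, rfl⟩
    refine ⟨_, (star_shift _ _ _).2 ⟨k, rfl⟩, _, rfl, _, ⟨?_, rfl⟩, _,
      (star_shift _ _ _).2 ⟨m' * k + j, ?_⟩, rfl, rfl⟩
    · simp only [enc2, Prod.smul_mk, nsmul_eq_mul, Prod.mk_add_mk]
      push_cast
      ring
    · simp only [enc2, Prod.smul_mk, nsmul_eq_mul, Prod.mk_add_mk]
      ext
      · simp only
        push_cast
        ring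
      · simp only
        push_cast
        ring

/-! ### Registers -/

abbrev Reg := ℕ →₀ ℕ

def inc (i : ℕ) (s t : Reg) : Prop := t = s + Finsupp.single i 1

def dec (i : ℕ) (s t : Reg) : Prop := s = t + Finsupp.single i 1

def zer (i : ℕ) (s t : Reg) : Prop := s i = 0 ∧ t = s

def At3 (R : Reg → Reg → Prop) : Prop := ∃ i, R = inc i ∨ R = dec i ∨ R = zer i

noncomputable def pr (i : ℕ) : ℕ := Nat.nth Nat.Prime i

theorem pr_prime (i : ℕ) : (pr i).Prime := Nat.prime_nth_prime i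

theorem pr_inj {i j : ℕ} (h : pr i = pr j) : i = j :=
  Nat.nth_injective Nat.infinite_setOfPred_prime h

noncomputable def enc3 (s : Reg) : ℕ := s.prod (fun i e => pr i ^ e)

theorem enc3_add_single (s : Reg) (i k : ℕ) :
    enc3 (s + Finsupp.single i k) = enc3 s * pr i ^ k := by
  unfold enc3
  rw [Finsupp.prod_add_index' (by simp) (by intros; rw [pow_add]), Finsupp.prod_single_index]
  simp

theorem enc3_zero : enc3 0 = 1 := by simp [enc3]

theorem enc3_single (i k : ℕ) : enc3 (Finsupp.single i k) = pr i ^ k := by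
  have := enc3_add_single 0 i k
  rwa [zero_add, enc3_zero, one_mul] at this

theorem pr_dvd_enc3 (s : Reg) (i : ℕ) : pr i ∣ enc3 s ↔ s i ≠ 0 := by
  unfold enc3 Finsupp.prod
  rw [(Nat.prime_iff.1 (pr_prime i)).dvd_finsetProd_iff]
  constructor
  · rintro ⟨j, hj, h⟩
    have := (Nat.prime_dvd_prime_iff_eq (pr_prime i) (pr_prime j)).1 ((pr_prime i).dvd_of_dvd_pow h)
    rw [pr_inj this]
    exact Finsupp.mem_support_iff.1 hj
  · intro h
    exact ⟨i, Finsupp.mem_support_iff.2 h, dvd_pow_self _ h⟩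

theorem exists_pred (s : Reg) (i : ℕ) (h : s i ≠ 0) : ∃ t : Reg, s = t + Finsupp.single i 1 := by
  refine ⟨s - Finsupp.single i 1, ?_⟩
  ext j
  by_cases hj : j = i
  · subst hj
    simp
    omega
  · simp [Ne.symm hj]

theorem gen_nondvd (p t : ℕ) :
    Gen At2 (fun n n' => ∃ j, 1 ≤ j ∧ j ≤ t + 1 ∧ aff p j p j n n') := by
  induction t with
  | zero =>
    refine (Gen.atom (At := At2) ⟨p, 1, p, 1, rfl⟩).congr (fun a b => ⟨fun h => ⟨1, le_rfl, le_rfl, h⟩, ?_⟩)
    rintro ⟨j, h1, h2, h⟩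
    obtain rfl : j = 1 := by omega
    exact h
  | succ t ih =>
    refine (ih.union (Gen.atom (At := At2) ⟨p, t + 2, p, t + 2, rfl⟩)).congr (fun a b => ⟨?_, ?_⟩)
    · rintro (⟨j, h1, h2, h⟩ | h)
      · exact ⟨j, h1, by omega, h⟩
      · exact ⟨t + 2, by omega, le_rfl, h⟩
    · rintro ⟨j, h1, h2, h⟩
      by_cases hj : j = t + 2
      · subst hj
        exact Or.inr h
      · exact Or.inl ⟨j, h1, by omega, h⟩

theorem sim3 (R : Reg → Reg → Prop) (h : At3 R) : ∃ R', Gen At2 R' ∧ Sim enc3 R' R := by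
  obtain ⟨i, rfl | rfl | rfl⟩ := h
  · refine ⟨_, .atom ⟨1, 0, pr i, 0, rfl⟩, fun s n => ⟨?_, ?_⟩⟩
    · rintro ⟨k, h1, h2⟩
      refine ⟨_, ?_, rfl⟩
      rw [enc3_add_single, h2, h1]
      ring
    · rintro ⟨t, rfl, rfl⟩
      exact ⟨enc3 s, by ring, by rw [enc3_add_single]; ring⟩
  · refine ⟨_, .atom ⟨pr i, 0, 1, 0, rfl⟩, fun s n => ⟨?_, ?_⟩⟩
    · rintro ⟨k, h1, h2⟩
      obtain ⟨t, rfl⟩ := exists_pred s i ((pr_dvd_enc3 s i).1 ⟨k, by simpa using h1⟩)
      refine ⟨t, ?_, rfl⟩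
      rw [enc3_add_single, pow_one, add_zero, mul_comm] at h1
      have := Nat.eq_of_mul_eq_mul_left (pr_prime i).pos h1
      omega
    · rintro ⟨t, rfl, rfl⟩
      exact ⟨enc3 t, by rw [enc3_add_single]; ring, by ring⟩
  · have h2 := (pr_prime i).two_le
    refine ⟨_, gen_nondvd (pr i) (pr i - 2), fun s n => ⟨?_, ?_⟩⟩
    · rintro ⟨j, h1, hj, k, h3, h4⟩
      refine ⟨s, by rw [h3, h4], ?_, rfl⟩
      by_contra hc
      have := (pr_dvd_enc3 s i).2 hc
      rw [h3, Nat.dvd_add_right (Dvd.intro _ rfl)] at this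
      have := Nat.le_of_dvd h1 this
      omega
    · rintro ⟨t, rfl, h0, rfl⟩
      have hnd : ¬ pr i ∣ enc3 t := fun hc => (pr_dvd_enc3 t i).1 hc h0
      have hlt : enc3 t % pr i < pr i := Nat.mod_lt _ (by omega)
      have hpos : enc3 t % pr i ≠ 0 := fun hc => hnd (Nat.dvd_of_mod_eq_zero hc)
      exact ⟨enc3 t % pr i, by omega, by omega, enc3 t / pr i, (Nat.div_add_mod _ _).symm,
        (Nat.div_add_mod _ _).symm⟩

end Pool.Agent.P.MP_874ce0_al
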