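import Pool.Agent.P.MP_874ce0_al.Prim

/-! A one-relator inverse monoid with decidable identity problem and undecidable word problem. -/

set_option autoImplicit false

namespace Pool.Agent.P.MP_874ce0_al

variable {Q : Type} {δ : Q → AL → Q → Prop}

/-- The single relator. -/
def bigw (βs : List (List (GX Q ⊕ GX Q))) : List (GX Q ⊕ GX Q) :=
  βs.flatMap (fun β => β ++ invl β) ++ srel

theorem model_bigw {V : Type} {step : GX Q ⊕ GX Q → V → Option V} {Valid : V → Prop}
    (G : InvGraph step Valid) {βs : List (List (GX Q ⊕ GX Q))}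
    (h1 : ∀ β ∈ βs, ∀ v, Valid v → (run step β v).isSome)
    (h2 : ∀ v, Valid v → run step srel v = some v) :
    ∀ v, Valid v → run step (bigw βs) v = some v := by
  intro v hv
  induction βs with
  | nil => exact h2 v hv
  | cons β βs ih =>
    have : bigw (β :: βs) = (β ++ invl β) ++ bigw βs := by simp [bigw]
    rw [this, run_append, G.run_idem _ hv, if_pos (h1 β (List.mem_cons_self ..) v hv)]
    exact ih (fun β' h => h1 β' (List.mem_cons_of_mem _ h))

theorem prod_invl {Y M : Type} [Monoid M] [StarMul M] {g : Y ⊕ Y → M}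
    (hg : ∀ l, g l.swap = star (g l)) (u : List (Y ⊕ Y)) :
    ((invl u).map g).prod = star (u.map g).prod := by
  induction u with
  | nil => simp
  | cons l u ih => simp [ih, hg]

theorem monoid_bigw {M : Type} [Monoid M] [StarMul M] [IsInv M] {g : GX Q ⊕ GX Q → M}
    (hg : ∀ l, g l.swap = star (g l)) {βs : List (List (GX Q ⊕ GX Q))}
    (h : ((bigw βs).map g).prod = 1) :
    (∀ β ∈ βs, RU (β.map g).prod) ∧ (srel.map g).prod = 1 := by
  induction βs with
  | nil => exact ⟨by simp, by simpa [bigw] using h⟩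
  | cons β βs ih =>
    have : bigw (β :: βs) = (β ++ invl β) ++ bigw βs := by simp [bigw]
    rw [this, List.map_append, List.prod_append, List.map_append, List.prod_append,
      prod_invl hg] at h
    obtain ⟨h1, h2⟩ := idem_split h
    obtain ⟨h3, h4⟩ := ih h2
    refine ⟨fun β' hβ' => ?_, h4⟩
    rcases List.mem_cons.1 hβ' with rfl | hβ'
    · exact h1
    · exact h3 β' hβ'

theorem rels_of_bigw {M : Type} [Monoid M] [StarMul M] [IsInv M] {g : GX Q ⊕ GX Q → M}
    (hg : ∀ l, g l.swap = star (g l)) {βs : List (List (GX Q ⊕ GX Q))}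
    (hβ : ∀ β, β ∈ βs ↔ Rule δ β) (h : ((bigw βs).map g).prod = 1) :
    Rels δ (fun x => g (emb x)) (fun t => g (tt t)) := by
  obtain ⟨h1, h2⟩ := monoid_bigw hg h
  have hti : ∀ t, g (ti t) = star (g (tt t)) := fun t => hg (tt t)
  refine ⟨fun x => by rw [← emb_swap, hg], fun t => ?_, fun x => ?_, fun p x q hd => ?_, ?_⟩
  · simpa using h1 _ ((hβ _).2 (Or.inl ⟨t, rfl⟩))
  · simpa [hti, mul_assoc] using h1 _ ((hβ _).2 (Or.inr (Or.inl ⟨x, rfl⟩)))
  · simpa [hti, mul_assoc] using h1 _ ((hβ _).2 (Or.inr (Or.inr ⟨p, x, q, hd, rfl⟩)))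
  · rw [← h2]
    simp only [srel, List.map_cons, List.prod_cons, List.map_append, List.prod_append, List.map_map,
      List.map_nil, List.prod_nil, mul_one, hti, mul_assoc]
    rfl

theorem gen_eq {M : Type} [Monoid M] [StarMul M] {g : GX Q ⊕ GX Q → M}
    (hg : ∀ l, g l.swap = star (g l)) : gen (fun x => g (emb x)) (fun t => g (tt t)) = g := by
  funext l
  rcases l with (b | t) | (b | t)
  · rfl
  · rfl
  · rfl
  · exact (hg (tt t)).symm

theorem exists_rules [Finite Q] (δ : Q → AL → Q → Prop) :
    ∃ βs : List (List (GX Q ⊕ GX Q)), ∀ β, β ∈ βs ↔ Rule δ β := by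
  have h : {β | Rule δ β}.Finite := by
    refine (List.finite_length_le (GX Q ⊕ GX Q) 3).subset ?_
    rintro β (⟨t, rfl⟩ | ⟨x, rfl⟩ | ⟨p, x, q, -, rfl⟩) <;> simp
  exact ⟨h.toFinset.toList, fun β => by simp⟩

/-! ### The model detecting accepted inputs -/

noncomputable def stepD (f : Q → YY ⊕ ℕ → YY ⊕ ℕ) : GX Q ⊕ GX Q → YY ⊕ ℕ → Option (YY ⊕ ℕ)
  | Sum.inl (Sum.inl b), v => some (Sum.map (actY (Sum.inl b)) id v)
  | Sum.inr (Sum.inl b), v => some (Sum.map (actY (Sum.inr b)) id v)
  | Sum.inl (Sum.inr none), v => some v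
  | Sum.inr (Sum.inr none), v => some v
  | Sum.inl (Sum.inr (some q)), v => some (f q v)
  | Sum.inr (Sum.inr (some q)), v => Function.partialInv (f q) v

theorem stepD_emb (f : Q → YY ⊕ ℕ → YY ⊕ ℕ) (x : AL) (v : YY ⊕ ℕ) :
    stepD f (emb x) v = some (Sum.map (actY x) id v) := by
  rcases x with b | b <;> rfl

theorem run_stepD_emb (f : Q → YY ⊕ ℕ → YY ⊕ ℕ) (w : List AL) (v : YY ⊕ ℕ) :
    run (stepD f) (w.map emb) v = some (Sum.map (actW w) id v) := by
  induction w generalizing v with
  | nil => rcases v with v | v <;> rfl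
  | cons x w ih =>
    rw [List.map_cons, run_cons, stepD_emb, Option.bind_some, ih]
    rcases v with v | v <;> rfl

theorem stepD_invGraph {f : Q → YY ⊕ ℕ → YY ⊕ ℕ} (hf : ∀ q, Function.Injective (f q)) :
    InvGraph (stepD f) (fun _ => True) := by
  refine ⟨fun _ _ _ _ _ => trivial, fun l v v' _ h => ?_⟩
  have key : ∀ x : AL, Sum.map (actY x.swap) id (Sum.map (actY x) (id : ℕ → ℕ) v) = v := by
    intro x
    rcases v with v | v
    · simp [actY_swap]
    · rfl
  rcases l with (b | _ | q) | (b | _ | q)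
  · obtain rfl := Option.some.inj h
    exact congrArg some (key (Sum.inl b))
  · obtain rfl := Option.some.inj h
    rfl
  · obtain rfl := Option.some.inj h
    exact Function.partialInv_left (hf q) v
  · obtain rfl := Option.some.inj h
    exact congrArg some (key (Sum.inr b))
  · obtain rfl := Option.some.inj h
    rfl
  · exact congrArg some (((hf q).isPartialInv _ _).1 h)

theorem exists_inj_range (T : Set (YY ⊕ ℕ)) (hT : ∀ n, Sum.inr n ∈ T) :
    ∃ f : YY ⊕ ℕ → YY ⊕ ℕ, Function.Injective f ∧ Set.range f = T := by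
  have : Infinite T := Infinite.of_injective (fun n : ℕ => (⟨Sum.inr n, hT n⟩ : T))
    (fun a b h => Sum.inr.inj (congrArg Subtype.val h))
  obtain ⟨e⟩ : Nonempty ((YY ⊕ ℕ) ≃ T) := nonempty_equiv_of_countable
  refine ⟨fun v => e v, Subtype.val_injective.comp e.injective, ?_⟩
  ext v
  constructor
  · rintro ⟨u, rfl⟩
    exact (e u).2
  · intro hv
    exact ⟨e.symm ⟨v, hv⟩, by simp⟩

def epsw (q0 : Q) : List (GX Q ⊕ GX Q) := [tt none, ti (some q0), tt (some q0), ti none]

def testw (qf : Q) (N : ℕ) : List (GX Q ⊕ GX Q) :=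
  (tt none :: (List.replicate N lA).map emb ++ [ti (some qf)]) ++
    (tt (some qf) :: (List.replicate N la).map emb ++ [ti none])

theorem actW_replicate (N : ℕ) (x : ℤ) :
    actW (List.replicate N lA) (0, x, 0, 0) = (0, x - N, 0, 0) := by
  induction N generalizing x with
  | zero => simp [actW]
  | succ N ih =>
    have : actW (List.replicate (N + 1) lA) (0, x, 0, 0) =
        actW (List.replicate N lA) (0, x + -1, 0, 0) := by
      simp [List.replicate_succ, actW, actY, actA]
    rw [this, ih]
    congr 2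
    push_cast
    ring

theorem detect (q0 qf : Q) (N : ℕ) : ∃ step : GX Q ⊕ GX Q → YY ⊕ ℕ → Option (YY ⊕ ℕ),
    InvGraph step (fun _ => True) ∧ (∀ β, Rule δ β → ∀ v, (run step β v).isSome) ∧
    (∀ v, run step srel v = some v) ∧
    ∃ v, run step (epsw q0 ++ testw qf N) v = run step (epsw q0) v →
      ∃ w, Path δ q0 w qf ∧ actW w (0, N, 0, 0) = (0, 0, 0, 0) := by
  let T : Q → Set (YY ⊕ ℕ) := fun q =>
    {v | (∃ w, Path δ q0 w q ∧ v = Sum.inl (actW w (0, N, 0, 0))) ∨ ∃ n, v = Sum.inr n}
  choose f hf hr using fun q => exists_inj_range (T q) (fun n => Or.inr ⟨n, rfl⟩)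
  have hinv : ∀ q v, v ∈ T q → ∃ u, f q u = v ∧ Function.partialInv (f q) v = some u := by
    intro q v hv
    rw [← hr] at hv
    obtain ⟨u, rfl⟩ := hv
    exact ⟨u, rfl, Function.partialInv_left (hf q) u⟩
  refine ⟨stepD f, stepD_invGraph hf, ?_, ?_, Sum.inl (0, N, 0, 0), ?_⟩
  · rintro β (⟨t, rfl⟩ | ⟨x, rfl⟩ | ⟨p, x, q, hd, rfl⟩) v
    · rcases t with _ | q <;> simp [stepD]
    · have h1 : ∀ v, stepD f (tt none) v = some v := fun _ => rfl
      have h2 : ∀ v, stepD f (ti none) v = some v := fun _ => rfl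
      simp [h1, h2, stepD_emb]
    · have h1 : stepD f (tt (some p)) v = some (f p v) := rfl
      have h2 : ∀ v, stepD f (ti (some q)) v = Function.partialInv (f q) v := fun _ => rfl
      have h3 : f p v ∈ T p := by rw [← hr]; exact ⟨v, rfl⟩
      have h4 : Sum.map (actY x) id (f p v) ∈ T q := by
        rcases h3 with ⟨w, hw, e⟩ | ⟨n, e⟩
        · exact Or.inl ⟨w ++ [x], hw.snoc hd, by rw [e, actW_append]; rfl⟩
        · exact Or.inr ⟨n, by rw [e]; rfl⟩
      obtain ⟨u, -, hu⟩ := hinv q _ h4
      simp [h1, h2, stepD_emb, hu]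
  · intro v
    have h1 : ∀ v, stepD f (tt none) v = some v := fun _ => rfl
    have h2 : ∀ v, stepD f (ti none) v = some v := fun _ => rfl
    rw [srel, run_cons, h1, Option.bind_some, run_append, run_stepD_emb, Option.bind_some, run_cons,
      h2]
    rcases v with v | v
    · simp [actW_relw]
    · rfl
  · intro h
    have h1 : ∀ v, stepD f (tt none) v = some v := fun _ => rfl
    have h2 : ∀ v, stepD f (ti none) v = some v := fun _ => rfl
    have h3 : ∀ q v, stepD f (tt (some q)) v = some (f q v) := fun _ _ => rfl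
    have h4 : ∀ q v, stepD f (ti (some q)) v = Function.partialInv (f q) v := fun _ _ => rfl
    obtain ⟨u, hu1, hu2⟩ := hinv q0 (Sum.inl (0, N, 0, 0)) (Or.inl ⟨[], Path.nil _, rfl⟩)
    have h5 : run (stepD f) (epsw q0) (Sum.inl (0, N, 0, 0)) =
        some (Sum.inl (0, (N : ℤ), 0, 0)) := by
      simp [epsw, h1, h2, h3, h4, hu1, hu2]
    rw [run_append, h5, Option.bind_some, testw, run_append, List.cons_append, run_cons, h1,
      Option.bind_some, run_append, run_stepD_emb, Option.bind_some, run_cons, h4, Sum.map_inl,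
      actW_replicate, sub_self] at h
    cases h6 : Function.partialInv (f qf) (Sum.inl (0, 0, 0, 0)) with
    | none => simp [h6] at h
    | some u' =>
      have h7 := ((hf qf).isPartialInv _ _).1 h6
      have h8 : (Sum.inl (0, 0, 0, 0) : YY ⊕ ℕ) ∈ T qf := by rw [← hr]; exact ⟨u', h7⟩
      rcases h8 with ⟨w, hw, e⟩ | ⟨n, e⟩
      · exact ⟨w, hw, (Sum.inl.inj e).symm⟩
      · simp at e

theorem accept {M : Type} [Monoid M] [StarMul M] [IsInv M] {g : GX Q ⊕ GX Q → M}
    (hg : ∀ l, g l.swap = star (g l)) (h : Rels δ (fun x => g (emb x)) (fun t => g (tt t)))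
    {q0 qf : Q} {N : ℕ}
    (hN : ∀ A Z : Mˣ, Commute A (Z * A * Z⁻¹) → ∃ w, Path δ q0 w qf ∧ A ^ N * evW A Z w = 1) :
    ((epsw q0 ++ testw qf N).map g).prod = ((epsw q0).map g).prod := by
  obtain ⟨A, Z, hc, hA⟩ := h.units
  obtain ⟨w, hw, e⟩ := hN A Z hc
  have hti : ∀ t, g (ti t) = star (g (tt t)) := fun t => hg (tt t)
  have e1 : evW A Z w = evW A Z (List.replicate N lA) := by
    rw [← mul_eq_one_iff_inv_eq.1 e]
    simp [evW, evG]
  have e2 : g (tt none) * ((List.replicate N lA).map (fun x => g (emb x))).prod =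
      g (tt none) * (w.map (fun x => g (emb x))).prod := by
    rw [← evW_tau hA, ← evW_tau hA, e1]
  have e3 : ((List.replicate N la).map (fun x => g (emb x))).prod * star (g (tt none)) =
      star (w.map (fun x => g (emb x))).prod * star (g (tt none)) := by
    rw [← star_mul, ← e2, star_mul]
    congr 1
    have : g (emb lA) = star (g (emb la)) := hg (emb la)
    simp [this]
  have key := eps_absorb (s := g (tt none)) (h.path hw)
  have l1 : ((epsw q0).map g).prod =
      g (tt none) * star (g (tt (some q0))) * (g (tt (some q0)) * star (g (tt none))) := by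
    simp [epsw, hti, mul_assoc]
  have l2 : ((testw qf N).map g).prod =
      g (tt none) * ((List.replicate N lA).map (fun x => g (emb x))).prod * star (g (tt (some qf))) *
      (g (tt (some qf)) * (((List.replicate N la).map (fun x => g (emb x))).prod *
        star (g (tt none)))) := by
    simp [testw, hti, mul_assoc]
  rw [List.map_append, List.prod_append, l1, l2, e2, e3, ← mul_assoc (g (tt (some qf))), key]

theorem prim_replicate {L : Type} [Primcodable L] (l : L) :
    Primrec (fun n : ℕ => List.replicate n l) := by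
  refine (Primrec.list_map Primrec.list_range (Primrec.const l).to₂).of_eq (fun n => ?_)
  simp [List.map_const']

theorem main : ∃ (n : ℕ) (w : List (Fin n ⊕ Fin n)),
    ComputablePred (fun x : List (Fin n ⊕ Fin n) => wcon w (FreeMonoid.ofList x) 1) ∧
    ¬ ComputablePred (fun p : List (Fin n ⊕ Fin n) × List (Fin n ⊕ Fin n) =>
      wcon w (FreeMonoid.ofList p.1) (FreeMonoid.ofList p.2)) := by
  obtain ⟨m, δ, q0, qf, S, b, hS, hsnd, hcmp⟩ := exists_automaton
  obtain ⟨βs, hβ⟩ := exists_rules δ
  obtain ⟨n, ⟨e⟩⟩ := Finite.exists_equiv_fin (GX (Fin m))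
  let enc : GX (Fin m) ⊕ GX (Fin m) → Fin n ⊕ Fin n := Sum.map e e
  let dec : Fin n ⊕ Fin n → GX (Fin m) ⊕ GX (Fin m) := Sum.map e.symm e.symm
  have de : ∀ l, dec (enc l) = l := by rintro (l | l) <;> simp [enc, dec]
  have ed : ∀ l, enc (dec l) = l := by rintro (l | l) <;> simp [enc, dec]
  have de' : ∀ u : List _, (u.map enc).map dec = u := fun u => by simp [Function.comp_def, de]
  have ed' : ∀ u : List _, (u.map dec).map enc = u := fun u => by simp [Function.comp_def, ed]
  let w := (bigw βs).map enc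
  let g : GX (Fin m) ⊕ GX (Fin m) → PM w := fun l => pmk w (FreeMonoid.of (enc l))
  have hg : ∀ l, g l.swap = star (g l) := by rintro (l | l) <;> rfl
  have hprod : ∀ u : List _, (u.map g).prod = pmk w (FreeMonoid.ofList (u.map enc)) := by
    intro u
    induction u with
    | nil => simp
    | cons l u ih => rw [List.map_cons, List.prod_cons, ih, List.map_cons, FreeMonoid.ofList_cons,
        map_mul]
  have hrel := rels_of_bigw hg hβ (by rw [hprod]; exact pmk_rel w)
  have sound : ∀ {V : Type} {step : GX (Fin m) ⊕ GX (Fin m) → V → Option V} {Valid : V → Prop},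
      InvGraph step Valid → (∀ β, Rule δ β → ∀ v, Valid v → (run step β v).isSome) →
      (∀ v, Valid v → run step srel v = some v) → ∀ x y : List (Fin n ⊕ Fin n),
      wcon w (FreeMonoid.ofList x) (FreeMonoid.ofList y) → ∀ v, Valid v →
        run step (x.map dec) v = run step (y.map dec) v := by
    intro V step Valid G h1 h2 x y h v hv
    have G' : InvGraph (fun l => step (dec l)) Valid :=
      ⟨fun l => G.valid (dec l), fun l v v' hv h => by
        have := G.inv (dec l) v v' hv h
        rcases l with l | l <;> exact this⟩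
    have := G'.sound (w := w) (fun v hv => by
      rw [run_map, de']
      exact model_bigw G (fun β h => h1 β ((hβ β).1 h)) h2 v hv) h v hv
    rwa [run_map step dec, run_map step dec] at this
  refine ⟨n, w, ?_, fun h => hS ?_⟩
  · refine (primPred_loop δ dec).computablePred.of_eq (fun x => ⟨fun h => ?_, fun h => ?_⟩)
    · rw [run_map] at h
      have := hrel.loop_eq_one h
      rw [gen_eq hg, hprod, ed'] at this
      exact pmk_eq.1 (this.trans (map_one _).symm)
    · rw [run_map]
      exact sound gamma_invGraph (fun β h v hv => gamma_rule h hv) (fun v hv => gamma_srel hv)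
        x [] h [] trivial
  · obtain ⟨F, hF, eF⟩ := ComputablePred.computable_iff.1 h
    have hpow : Primrec (fun k : ℕ => b ^ k) :=
      (Primrec₂.unpaired'.1 Nat.Primrec.pow).comp (Primrec.const b) Primrec.id
    have hu : Primrec (fun k : ℕ => (epsw q0 ++ testw qf (b ^ k)).map enc) := by
      refine (Primrec.list_append.comp (Primrec.const ((epsw q0).map enc ++ [enc (tt none)]))
        (Primrec.list_append.comp ((prim_replicate (enc (emb lA))).comp hpow)
          (Primrec.list_append.comp (Primrec.const [enc (ti (some qf)), enc (tt (some qf))])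
            (Primrec.list_append.comp ((prim_replicate (enc (emb la))).comp hpow)
              (Primrec.const [enc (ti none)]))))).of_eq (fun k => ?_)
      simp [testw]
    refine ComputablePred.computable_iff.2
      ⟨fun k => F ((epsw q0 ++ testw qf (b ^ k)).map enc, (epsw q0).map enc),
        hF.comp (hu.pair (Primrec.const _)).to_comp, ?_⟩
    funext k
    rw [← congrFun eF ((epsw q0 ++ testw qf (b ^ k)).map enc, (epsw q0).map enc)]
    refine propext ⟨fun hk => ?_, fun hk => ?_⟩
    · rw [← pmk_eq, ← hprod, ← hprod]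
      exact accept hg hrel (fun A Z hc => hcmp _ A Z hc _ hk)
    · obtain ⟨step, G, h1, h2, v, h3⟩ := detect (δ := δ) q0 qf (b ^ k)
      have := sound G (fun β h v _ => h1 β h v) (fun v _ => h2 v) _ _ hk v trivial
      rw [de', de'] at this
      obtain ⟨w', hw', e'⟩ := h3 this
      exact hsnd _ w' hw' e'

end Pool.Agent.P.MP_874ce0_al
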