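import Pool.Agent.P.MP_874ce0_al.Gamma

/-! Reading a word in the Schuetzenberger graph of the identity is primitive recursive. -/

set_option autoImplicit false

namespace Pool.Agent.P.MP_874ce0_al

open Primrec

theorem prim_finite₂ {α β σ : Type} [Primcodable α] [Primcodable β] [Primcodable σ] [Finite α]
    {f : α → β → σ} (h : ∀ a, Primrec (f a)) : Primrec₂ f := by
  obtain ⟨n, ⟨e⟩⟩ := Finite.exists_equiv_fin α
  have h1 : Primrec₂ (fun (i : Fin n) (b : β) => f (e.symm i) b) :=
    Primrec.fin_curry₁.2 (fun i => h _)
  exact (h1.comp ((Primrec.dom_finite e).comp fst) snd).of_eq (fun p => by simp)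

theorem primPred_finite {α : Type} [Primcodable α] [Finite α] (p : α → Prop) : PrimrecPred p := by
  classical
  exact Primrec.primrecPred (Primrec.dom_finite _)

theorem prim_up : Primrec up :=
  Primrec.ite (Primrec.eq.comp (nat_mod.comp Primrec.id (const 2)) (const 0))
    (nat_add.comp Primrec.id (const 2)) (nat_sub.comp Primrec.id (const 2))

theorem prim_dn : Primrec dn :=
  Primrec.ite (Primrec.eq.comp (nat_mod.comp Primrec.id (const 2)) (const 1))
    (nat_add.comp Primrec.id (const 2))
    (Primrec.ite (Primrec.eq.comp Primrec.id (const 0)) (const 1)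
      (nat_sub.comp Primrec.id (const 2)))

theorem prim_top : Primrec (fun g : NF => g.1.head?.map Prod.fst) :=
  (option_map₁ fst).comp (list_head?.comp fst)

theorem prim_zf : Primrec zf :=
  Primrec.ite ((Primrec.eq.comp (fst.comp snd) (const 0)).and
      (Primrec.eq.comp prim_top (const (some false))))
    ((list_tail.comp fst).pair ((snd.comp snd).pair (snd.comp (list_headI.comp fst))))
    ((list_cons.comp ((const true).pair (fst.comp snd)) fst).pair ((snd.comp snd).pair (const 0)))

theorem prim_zb : Primrec zb :=
  Primrec.ite ((Primrec.eq.comp (snd.comp snd) (const 0)).and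
      (Primrec.eq.comp prim_top (const (some true))))
    ((list_tail.comp fst).pair ((snd.comp (list_headI.comp fst)).pair (fst.comp snd)))
    ((list_cons.comp ((const false).pair (snd.comp snd)) fst).pair ((const 0).pair (fst.comp snd)))

theorem prim_stepG (x : AL) : Primrec (stepG x) := by
  rcases x with (_ | _) | (_ | _)
  · exact fst.pair ((prim_up.comp (fst.comp snd)).pair (snd.comp snd))
  · exact prim_zf
  · exact fst.pair ((prim_dn.comp (fst.comp snd)).pair (snd.comp snd))
  · exact prim_zb

variable {Q : Type} [Primcodable Q] [Finite Q] (δ : Q → AL → Q → Prop)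

theorem primPred_marks (P : Set Q → Prop) :
    PrimrecPred (fun p : Q × List AL => P (marks δ p.1 p.2)) := by
  obtain ⟨n, ⟨e⟩⟩ := Finite.exists_equiv_fin (Set Q)
  let : Primcodable (Set Q) := Primcodable.ofEquiv (Fin n) e
  have h1 : Primrec (fun p : Q × List AL => marks δ p.1 p.2) :=
    list_foldr (f := fun p : Q × List AL => p.2) (g := fun p => {q | Eps δ p.1 q})
      (h := fun _ y => nxt δ y.1 y.2) snd
      ((Primrec.dom_finite (fun q0 : Q => {q | Eps δ q0 q})).comp fst)
      ((Primrec.dom_finite (fun y : AL × Set Q => nxt δ y.1 y.2)).comp snd).to₂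
  exact (primPred_finite P).comp h1

theorem prim_stepT (x : AL) : Primrec (stepT δ x) := by
  classical
  have h1 : PrimrecPred (fun p : Q × List AL => (marks δ p.1 (x :: p.2)).Nonempty) :=
    (primPred_marks δ Set.Nonempty).comp (fst.pair (list_cons.comp (const x) snd))
  refine (Primrec.ite (Primrec.eq.comp (list_head?.comp snd) (const (some x.swap)))
    (option_some.comp (fst.pair (list_tail.comp snd)))
    (Primrec.ite h1 (option_some.comp (fst.pair (list_cons.comp (const x) snd)))
      (const none))).of_eq (fun p => ?_)
  unfold stepT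
  congr

theorem prim_stepP (x : AL) : Primrec (stepP δ x) := by
  refine (sumCasesOn (f := fun p : Pos Q => p)
    (g := fun _ g => (some (Sum.inl (stepG x g)) : Option (Pos Q)))
    (h := fun _ p => (stepT δ x p).map Sum.inr) Primrec.id
    (option_some.comp (sumInl.comp ((prim_stepG x).comp snd))).to₂
    ((option_map₁ sumInr).comp ((prim_stepT δ x).comp snd)).to₂).of_eq (fun p => ?_)
  rcases p with g | p <;> rfl

theorem primPred_mark (t : Option Q) : PrimrecPred (fun p : Pos Q => mark δ p t) := by
  classical
  refine Primrec.primrecPred ((sumCasesOn (f := fun p : Pos Q => p)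
    (g := fun _ _ => decide (t = none))
    (h := fun _ p => decide (∃ q ∈ marks δ p.1 p.2, t = some q)) Primrec.id
    (const _).to₂
    ((primPred_marks δ (fun S => ∃ q ∈ S, t = some q)).decide.comp snd).to₂).of_eq (fun p => ?_))
  rcases p with g | p <;> exact decide_eq_decide.2 Iff.rfl

theorem prim_stepA (x : AL) : Primrec (stepA δ x) := by
  classical
  refine (list_casesOn (f := fun v : Vx Q => v) (g := fun _ => (none : Option (Vx Q)))
    (h := fun _ y => if y.1.2 = none then (stepP δ x y.1.1).map (fun p' => (p', none) :: y.2)
      else none) Primrec.id (const none)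
    (Primrec.ite (Primrec.eq.comp (snd.comp (fst.comp snd)) (const none))
      (option_map ((prim_stepP δ x).comp (fst.comp (fst.comp snd)))
        (list_cons.comp (snd.pair (const none)) (snd.comp (snd.comp fst))).to₂)
      (const none)).to₂).of_eq (fun v => ?_)
  rcases v with _ | ⟨⟨p, _ | o⟩, rest⟩ <;> simp [stepA]

omit [Finite Q] in
theorem prim_fwd (t : Option Q) : Primrec (fwd t) := by
  classical
  refine (list_casesOn (f := fun v : Vx Q => v) (g := fun _ => ([(seed t, none)] : Vx Q))
    (h := fun v y => if y.1.2 = some t then (y.1.1, none) :: y.2 else (seed t, none) :: v)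
    Primrec.id (const _)
    (Primrec.ite (Primrec.eq.comp (snd.comp (fst.comp snd)) (const (some t)))
      (list_cons.comp ((fst.comp (fst.comp snd)).pair (const none)) (snd.comp snd))
      (list_cons.comp (const _) fst)).to₂).of_eq (fun v => ?_)
  rcases v with _ | ⟨⟨p, o⟩, rest⟩
  · rfl
  · by_cases h : o = some t <;> simp [fwd, h]

theorem prim_bwd (t : Option Q) : Primrec (bwd δ t) := by
  classical
  refine (list_casesOn (f := fun v : Vx Q => v) (g := fun _ => (none : Option (Vx Q)))
    (h := fun _ y => if y.1.2 = none then (if y.1.1 = seed t then some y.2 else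
      if mark δ y.1.1 t then some ((y.1.1, some t) :: y.2) else none) else none)
    Primrec.id (const none)
    (Primrec.ite (Primrec.eq.comp (snd.comp (fst.comp snd)) (const none))
      (Primrec.ite (Primrec.eq.comp (fst.comp (fst.comp snd)) (const _))
        (option_some.comp (snd.comp snd))
        (Primrec.ite ((primPred_mark δ t).comp (fst.comp (fst.comp snd)))
          (option_some.comp (list_cons.comp ((fst.comp (fst.comp snd)).pair (const _))
            (snd.comp snd))) (const none)))
      (const none)).to₂).of_eq (fun v => ?_)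
  rcases v with _ | ⟨⟨p, _ | o⟩, rest⟩
  · rfl
  · by_cases h : p = seed t <;> by_cases h' : mark δ p t <;> simp [bwd, h, h']
  · simp [bwd]

theorem prim_stepV (l : GX Q ⊕ GX Q) : Primrec (stepV δ l) := by
  rcases l with (b | t) | (b | t)
  · exact prim_stepA δ _
  · exact option_some.comp (prim_fwd t)
  · exact prim_stepA δ _
  · exact prim_bwd δ t

theorem primPred_loop {L : Type} [Primcodable L] [Finite L] (d : L → GX Q ⊕ GX Q) :
    PrimrecPred (fun u : List L => run (fun l => stepV δ (d l)) u [] = some []) := by
  have h1 : Primrec₂ (fun l v => stepV δ (d l) v) := prim_finite₂ (fun l => prim_stepV δ (d l))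
  have h2 : Primrec (fun u : List L =>
      u.foldl (fun o l => o.bind (stepV δ (d l))) (some ([] : Vx Q))) :=
    list_foldl (f := fun u : List L => u) (g := fun _ => (some ([] : Vx Q)))
      (h := fun _ y => y.1.bind (stepV δ (d y.2))) Primrec.id (const _)
      (option_bind (fst.comp snd) (h1.comp (snd.comp (snd.comp fst)) snd).to₂).to₂
  refine (Primrec.eq.comp h2 (const (some []))).of_eq (fun u => ?_)
  rw [← run_eq_foldl (fun l => stepV δ (d l)) u (some [])]
  rfl

end Pool.Agent.P.MP_874ce0_al
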