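import Pool.Agent.P.MP_874ce0_al.Gen

/-! Register programs compute all recursive functions with restricted domain. -/

set_option autoImplicit false

namespace Pool.Agent.P.MP_874ce0_al

theorem Sim.star {S T : Type} {enc : T → S} {R' : S → S → Prop} {R : T → T → Prop}
    (s1 : Sim enc R' R) : Sim enc (Relation.ReflTransGen R') (Relation.ReflTransGen R) := by
  refine fun t s => ⟨fun h => ?_, ?_⟩
  · induction h with
    | refl => exact ⟨t, rfl, Relation.ReflTransGen.refl⟩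
    | tail _ h2 ih =>
      obtain ⟨t1, rfl, h1⟩ := ih
      obtain ⟨t2, rfl, h3⟩ := (s1 _ _).1 h2
      exact ⟨t2, rfl, h1.tail h3⟩
  · rintro ⟨t1, rfl, h⟩
    induction h with
    | refl => exact Relation.ReflTransGen.refl
    | tail _ h2 ih => exact ih.tail ((s1 _ _).2 ⟨_, rfl, h2⟩)

theorem rtg_succ (P : ℕ → Prop) (k : ℕ) :
    Relation.ReflTransGen (fun k k' => k' = k + 1 ∧ P k) 0 k ↔ ∀ m < k, P m := by
  constructor
  · intro h
    induction h with
    | refl => intro m hm; omega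
    | tail _ h2 ih =>
      obtain ⟨rfl, h2⟩ := h2
      intro m hm
      rcases Nat.lt_succ_iff_lt_or_eq.1 hm with h | rfl
      · exact ih m h
      · exact h2
  · intro h
    induction k with
    | zero => exact Relation.ReflTransGen.refl
    | succ k ih => exact (ih (fun m hm => h m (by omega))).tail ⟨rfl, h k (by omega)⟩

theorem gen_inc (i : ℕ) : Gen At3 (inc i) := .atom ⟨i, Or.inl rfl⟩
theorem gen_dec (i : ℕ) : Gen At3 (dec i) := .atom ⟨i, Or.inr (Or.inl rfl)⟩
theorem gen_zer (i : ℕ) : Gen At3 (zer i) := .atom ⟨i, Or.inr (Or.inr rfl)⟩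

theorem gen_id : Gen At3 (fun s t => t = s + 0) := by
  refine ((gen_inc 0).comp (gen_dec 0)).congr (fun s t => ⟨?_, ?_⟩)
  · rintro ⟨u, rfl, h⟩
    rw [add_zero]
    exact (add_right_cancel h).symm
  · rintro rfl
    exact ⟨_, rfl, by rw [dec, add_zero]⟩

theorem gen_mv (i : ℕ) (e : Reg) (he : e i = 0) (hg : Gen At3 (fun s t => t = s + e)) :
    Gen At3 (fun s t => t = s.update i 0 + s i • e) := by
  refine ((((gen_dec i).comp hg).star).comp (gen_zer i)).congr (fun s t => ?_)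
  have hs : Sim (fun k => s.update i (s i - k) + k • e)
      (Relation.Comp (dec i) (fun s t => t = s + e)) (fun k k' => k' = k + 1 ∧ k < s i) := by
    intro k t
    constructor
    · rintro ⟨u, h1, rfl⟩
      have h2 : ∀ j, (s.update i (s i - k) + k • e : Reg) j = (u + Finsupp.single i 1 : Reg) j :=
        fun j => by rw [← h1]
      have h3 := h2 i
      simp [he] at h3
      refine ⟨k + 1, ?_, rfl, by omega⟩
      ext j
      have h4 := h2 j
      by_cases hj : j = i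
      · subst hj
        simp [he]
        omega
      · simp [hj, add_mul] at h4 ⊢
        omega
    · rintro ⟨k', rfl, rfl, hk⟩
      refine ⟨s.update i (s i - (k + 1)) + k • e, ?_, ?_⟩
      · unfold dec
        ext j
        by_cases hj : j = i
        · subst hj
          simp [he]
          omega
        · simp [hj]
      · simp only [succ_nsmul, add_assoc]
  have h0 : s = (fun k => s.update i (s i - k) + k • e) 0 := by simp
  constructor
  · rintro ⟨u, h1, h2, rfl⟩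
    rw [h0] at h1
    obtain ⟨k, rfl, hk⟩ := (hs.star _ _).1 h1
    rw [rtg_succ] at hk
    simp [he] at h2
    have : k = s i := by
      by_contra hc
      have := hk (s i) (by omega)
      omega
    subst this
    simp
  · rintro rfl
    refine ⟨_, ?_, ?_, rfl⟩
    · have := (hs.star 0 _).2 ⟨s i, rfl, (rtg_succ _ _).2 (fun m hm => hm)⟩
      simpa using this
    · simp [he]

theorem gen_clear (o : ℕ) : Gen At3 (fun s t => t = s.update o 0) :=
  (gen_mv o 0 rfl gen_id).congr (fun s t => by simp)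

theorem gen_move (i o : ℕ) (h : i ≠ o) :
    Gen At3 (fun s t => t = s.update i 0 + s i • Finsupp.single o 1) :=
  gen_mv i _ (by simp [Ne.symm h]) (gen_inc o)

theorem gen_move2 (i o o' : ℕ) (h : i ≠ o) (h' : i ≠ o') :
    Gen At3 (fun s t => t = s.update i 0 + s i • (Finsupp.single o 1 + Finsupp.single o' 1)) := by
  refine gen_mv i _ (by simp [Ne.symm h, Ne.symm h']) ?_
  refine ((gen_inc o).comp (gen_inc o')).congr (fun s t => ⟨?_, ?_⟩)
  · rintro ⟨u, rfl, rfl⟩
    exact add_assoc _ _ _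
  · rintro rfl
    exact ⟨_, rfl, (add_assoc _ _ _).symm⟩

theorem gen_flip {R : Reg → Reg → Prop} (h : Gen At3 R) : Gen At3 (fun s t => R t s) := by
  induction h with
  | atom h =>
    obtain ⟨i, rfl | rfl | rfl⟩ := h
    · exact gen_dec i
    · exact gen_inc i
    · refine (gen_zer i).congr (fun s t => ⟨?_, ?_⟩) <;> rintro ⟨h, rfl⟩ <;> exact ⟨h, rfl⟩
  | comp _ _ ih1 ih2 =>
    refine (ih2.comp ih1).congr (fun s t => ⟨?_, ?_⟩) <;> rintro ⟨u, h1, h2⟩ <;> exact ⟨u, h2, h1⟩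
  | union _ _ ih1 ih2 => exact ih1.union ih2
  | star _ ih =>
    exact ih.star.congr (fun s t => Relation.reflTransGen_swap)

def Clean (B : ℕ) (s : Reg) : Prop := ∀ j, B ≤ j → s j = 0

theorem Clean.mono {B B' : ℕ} {s : Reg} (h : Clean B s) (hB : B ≤ B') : Clean B' s :=
  fun j hj => h j (hB.trans hj)

theorem Clean.update {B o : ℕ} {s : Reg} (h : Clean B s) (ho : o < B) (y : ℕ) :
    Clean B (s.update o y) := by
  intro j hj
  rw [Finsupp.update_apply, if_neg (by omega)]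
  exact h j hj

/-- A program assigning to register `o` any value allowed by `F`. -/
def Asg (B o : ℕ) (F : Reg → ℕ → Prop) : Prop :=
  ∃ R, Gen At3 R ∧ ∀ s t, Clean B s → (R s t ↔ ∃ y, F s y ∧ t = s.update o y)

/-- Expressions over the registers below `B`. -/
structure Ex (B : ℕ) (F : Reg → ℕ → Prop) : Prop where
  loc : ∀ s j v y, B ≤ j → (F (s.update j v) y ↔ F s y)
  asg : ∀ B' o, B ≤ B' → o < B' → Asg B' o F

theorem Ex.mono {B B' : ℕ} {F : Reg → ℕ → Prop} (h : Ex B F) (hB : B ≤ B') : Ex B' F :=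
  ⟨fun s j v y hj => h.loc s j v y (hB.trans hj), fun B'' o h1 h2 => h.asg B'' o (hB.trans h1) h2⟩

theorem Ex.congr {B : ℕ} {F F' : Reg → ℕ → Prop} (h : Ex B F) (e : ∀ s y, F s y ↔ F' s y) :
    Ex B F' := by
  have : F = F' := by
    funext a b
    exact propext (e a b)
  exact this ▸ h

theorem Ex.zero (B : ℕ) : Ex B (fun _ y => y = 0) :=
  ⟨fun _ _ _ _ _ => Iff.rfl, fun _ o _ _ => ⟨_, gen_clear o, fun s t _ => by simp⟩⟩

theorem Ex.any (B : ℕ) : Ex B (fun _ _ => True) := by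
  refine ⟨fun _ _ _ _ _ => Iff.rfl, fun B' o _ ho =>
    ⟨_, (gen_clear o).comp ((gen_flip (gen_clear o))), fun s t _ => ⟨?_, ?_⟩⟩⟩
  · rintro ⟨u, rfl, h⟩
    refine ⟨t o, trivial, ?_⟩
    ext j
    have := congrArg (fun f : Reg => f j) h
    by_cases hj : j = o
    · simp [hj]
    · simp only [Finsupp.update_apply, hj, if_false] at this ⊢
      exact this.symm
  · rintro ⟨y, -, rfl⟩
    exact ⟨_, rfl, by simp⟩

theorem Ex.alt {B : ℕ} {F G : Reg → ℕ → Prop} (hF : Ex B F) (hG : Ex B G) :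
    Ex B (fun s y => F s y ∨ G s y) := by
  refine ⟨fun s j v y hj => by rw [hF.loc s j v y hj, hG.loc s j v y hj], fun B' o h1 h2 => ?_⟩
  obtain ⟨R1, g1, e1⟩ := hF.asg B' o h1 h2
  obtain ⟨R2, g2, e2⟩ := hG.asg B' o h1 h2
  refine ⟨_, g1.union g2, fun s t hs => ?_⟩
  rw [e1 s t hs, e2 s t hs]
  constructor
  · rintro (⟨y, h, rfl⟩ | ⟨y, h, rfl⟩)
    · exact ⟨y, Or.inl h, rfl⟩
    · exact ⟨y, Or.inr h, rfl⟩
  · rintro ⟨y, h | h, rfl⟩
    · exact Or.inl ⟨y, h, rfl⟩
    · exact Or.inr ⟨y, h, rfl⟩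

theorem Ex.succ {B : ℕ} {F : Reg → ℕ → Prop} (hF : Ex B F) :
    Ex B (fun s y => ∃ t, F s t ∧ y = t + 1) := by
  refine ⟨fun s j v y hj => by simp only [hF.loc s j v _ hj], fun B' o h1 h2 => ?_⟩
  obtain ⟨R1, g1, e1⟩ := hF.asg B' o h1 h2
  have key : ∀ (s : Reg) (y : ℕ), s.update o y + Finsupp.single o 1 = s.update o (y + 1) := by
    intro s y
    ext j
    by_cases hj : j = o
    · simp [hj]
    · simp [hj]
  refine ⟨_, g1.comp (gen_inc o), fun s t hs => ⟨?_, ?_⟩⟩
  · rintro ⟨u, h, rfl⟩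
    obtain ⟨y, k, rfl⟩ := (e1 _ _ hs).1 h
    exact ⟨y + 1, ⟨y, k, rfl⟩, key s y⟩
  · rintro ⟨_, ⟨y, h, rfl⟩, rfl⟩
    exact ⟨_, (e1 _ _ hs).2 ⟨y, h, rfl⟩, (key s y).symm⟩

theorem Ex.reg {B i : ℕ} (hi : i < B) : Ex B (fun s y => y = s i) := by
  refine ⟨fun s j v y hj => by rw [Finsupp.update_apply, if_neg (by omega)], fun B' o h1 h2 => ?_⟩
  refine ⟨_, (gen_move2 i B' (B' + 1) (by omega) (by omega)).comp
    ((gen_move B' i (by omega)).comp ((gen_clear o).comp (gen_move (B' + 1) o (by omega)))),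
    fun s t hs => ?_⟩
  have e1 := hs B' le_rfl
  have e2 := hs (B' + 1) (by omega)
  have a1 : i ≠ B' := by omega
  have a2 : i ≠ B' + 1 := by omega
  have a3 : o ≠ B' := by omega
  have a4 : o ≠ B' + 1 := by omega
  have s1 : s.update i 0 + s i • (Finsupp.single B' 1 + Finsupp.single (B' + 1) 1)
      = ((s.update i 0).update B' (s i)).update (B' + 1) (s i) := by
    ext j
    simp only [Finsupp.coe_add, Finsupp.coe_smul, Pi.add_apply, Pi.smul_apply,
      Finsupp.update_apply, Finsupp.single_apply, smul_eq_mul]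
    split_ifs <;> subst_vars <;> omega
  have s2 : ∀ a, (((s.update i 0).update B' (s i)).update (B' + 1) a).update B' 0 +
      (((s.update i 0).update B' (s i)).update (B' + 1) a) B' • Finsupp.single i 1
      = s.update (B' + 1) a := by
    intro a
    have : (((s.update i 0).update B' (s i)).update (B' + 1) a) B' = s i := by
      simp [Finsupp.update_apply]
    rw [this]
    ext j
    simp only [Finsupp.coe_add, Finsupp.coe_smul, Pi.add_apply, Pi.smul_apply,
      Finsupp.update_apply, Finsupp.single_apply, smul_eq_mul]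
    split_ifs <;> subst_vars <;> omega
  have s3 : ∀ a, ((s.update (B' + 1) a).update o 0).update (B' + 1) 0 +
      ((s.update (B' + 1) a).update o 0) (B' + 1) • Finsupp.single o 1 = s.update o a := by
    intro a
    have : ((s.update (B' + 1) a).update o 0) (B' + 1) = a := by
      simp [Ne.symm a4]
    rw [this]
    ext j
    simp only [Finsupp.coe_add, Finsupp.coe_smul, Pi.add_apply, Pi.smul_apply,
      Finsupp.update_apply, Finsupp.single_apply, smul_eq_mul]
    split_ifs <;> subst_vars <;> omega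
  simp only [Relation.Comp, exists_eq_left, s1, s2, s3]

theorem Ex.bind {B : ℕ} {F : Reg → ℕ → Prop} {G : ℕ → Reg → ℕ → Prop} (hF : Ex B F)
    (hl : ∀ a s j v y, B ≤ j → (G a (s.update j v) y ↔ G a s y))
    (hG : ∀ r, B ≤ r → Ex (r + 1) (fun s y => G (s r) s y)) :
    Ex B (fun s y => ∃ a, F s a ∧ G a s y) := by
  refine ⟨fun s j v y hj => by simp only [hF.loc s j v _ hj, hl _ s j v _ hj],
    fun r o h1 h2 => ?_⟩
  obtain ⟨R1, g1, e1⟩ := hF.asg (r + 1) r (by omega) (by omega)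
  obtain ⟨R2, g2, e2⟩ := (hG r h1).asg (r + 1) o le_rfl (by omega)
  have key : ∀ (s : Reg) (a y : ℕ), Clean r s →
      ((s.update r a).update o y).update r 0 = s.update o y := by
    intro s a y hs
    ext j
    have := hs r le_rfl
    have : o ≠ r := by omega
    simp only [Finsupp.update_apply]
    split_ifs <;> simp_all
  refine ⟨_, g1.comp (g2.comp (gen_clear r)), fun s t hs => ⟨?_, ?_⟩⟩
  · rintro ⟨u, h, u', h', rfl⟩
    obtain ⟨a, k, rfl⟩ := (e1 _ _ (hs.mono (by omega))).1 h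
    obtain ⟨y, k', rfl⟩ := (e2 _ _ ((hs.mono (by omega)).update (by omega) a)).1 h'
    rw [hl _ _ _ _ _ h1] at k'
    refine ⟨y, ⟨a, k, by simpa using k'⟩, key s a y hs⟩
  · rintro ⟨y, ⟨a, h, h'⟩, rfl⟩
    refine ⟨_, (e1 _ _ (hs.mono (by omega))).2 ⟨a, h, rfl⟩, _,
      (e2 _ _ ((hs.mono (by omega)).update (by omega) a)).2 ⟨y, ?_, rfl⟩, (key s a y hs).symm⟩
    beta_reduce
    rw [hl _ _ _ _ _ h1]
    simpa using h'

theorem Ex.guardEq {B : ℕ} {F G H : Reg → ℕ → Prop} (hF : Ex B F) (hG : Ex B G) (hH : Ex B H) :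
    Ex B (fun s y => (∃ a, F s a ∧ G s a) ∧ H s y) := by
  refine ⟨fun s j v y hj => by simp only [hF.loc s j v _ hj, hG.loc s j v _ hj, hH.loc s j v _ hj],
    fun r o h1 h2 => ?_⟩
  obtain ⟨R1, g1, e1⟩ := hF.asg (r + 2) r (by omega) (by omega)
  obtain ⟨R2, g2, e2⟩ := hG.asg (r + 2) (r + 1) (by omega) (by omega)
  obtain ⟨R3, g3, e3⟩ := hH.asg r o h1 h2
  refine ⟨_, g1.comp (g2.comp ((gen_flip (gen_move2 (r + 2) r (r + 1) (by omega) (by omega))).comp
    ((gen_zer r).comp ((gen_zer (r + 1)).comp ((gen_clear (r + 2)).comp g3))))),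
    fun s t hs => ⟨?_, ?_⟩⟩
  · rintro ⟨u, h, u', h', u3, h2, u4, ⟨z1, rfl⟩, u2, ⟨z2, rfl⟩, _, rfl, h3⟩
    obtain ⟨a, k, rfl⟩ := (e1 _ _ (hs.mono (by omega))).1 h
    obtain ⟨b, k', rfl⟩ := (e2 _ _ ((hs.mono (by omega)).update (by omega) a)).1 h'
    rw [hG.loc _ _ _ _ h1] at k'
    have p := fun j => congrArg (fun f : Reg => f j) h2
    have p1 := p r
    have p2 := p (r + 1)
    simp [Finsupp.update_apply, z1, z2] at p1 p2
    have hs' : u2.update (r + 2) 0 = s := by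
      ext j
      have p3 := p j
      have := hs j
      simp only [Finsupp.coe_add, Finsupp.coe_smul, Pi.add_apply, Pi.smul_apply,
        Finsupp.update_apply, Finsupp.single_apply, smul_eq_mul] at p3 ⊢
      split_ifs at p3 ⊢ <;> subst_vars <;> omega
    rw [hs'] at h3
    obtain ⟨y, k3, rfl⟩ := (e3 _ _ hs).1 h3
    exact ⟨y, ⟨⟨a, k, by rw [p1, ← p2]; exact k'⟩, k3⟩, rfl⟩
  · rintro ⟨y, ⟨⟨a, h, h'⟩, h3⟩, rfl⟩
    have c0 := hs r le_rfl
    have c1 := hs (r + 1) (by omega)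
    have c2 := hs (r + 2) (by omega)
    refine ⟨_, (e1 _ _ (hs.mono (by omega))).2 ⟨a, h, rfl⟩, _,
      (e2 _ _ ((hs.mono (by omega)).update (by omega) a)).2 ⟨a, ?_, rfl⟩, s.update (r + 2) a, ?_,
      _, ⟨?_, rfl⟩, _, ⟨?_, rfl⟩, _, rfl, ?_⟩
    · rw [hG.loc _ _ _ _ h1]
      exact h'
    · ext j
      simp only [Finsupp.coe_add, Finsupp.coe_smul, Pi.add_apply, Pi.smul_apply,
        Finsupp.update_apply, Finsupp.single_apply, smul_eq_mul]
      split_ifs <;> subst_vars <;> omega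
    · simp [Finsupp.update_apply, c0]
    · simp [Finsupp.update_apply, c1]
    · have : (s.update (r + 2) a).update (r + 2) 0 = s := by
        rw [Finsupp.update_idem, ← c2, Finsupp.update_self]
      rw [this]
      exact (e3 _ _ hs).2 ⟨y, h3, rfl⟩

/-- Iterates of a nondeterministic step. -/
def It (F0 : ℕ → Prop) (G : ℕ → ℕ → ℕ → Prop) : ℕ → ℕ → Prop
  | 0, a => F0 a
  | k + 1, a' => ∃ a, It F0 G k a ∧ G k a a'

theorem it_iff (F0 : ℕ → Prop) (G : ℕ → ℕ → ℕ → Prop) (p : ℕ × ℕ) :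
    (∃ a0, F0 a0 ∧ Relation.ReflTransGen
      (fun p q : ℕ × ℕ => q.1 = p.1 + 1 ∧ G p.1 p.2 q.2) (0, a0) p) ↔ It F0 G p.1 p.2 := by
  constructor
  · rintro ⟨a0, h0, h⟩
    induction h with
    | refl => exact h0
    | tail _ h2 ih =>
      rw [h2.1]
      exact ⟨_, ih, h2.2⟩
  · obtain ⟨k, a⟩ := p
    induction k generalizing a with
    | zero => exact fun h => ⟨a, h, Relation.ReflTransGen.refl⟩
    | succ k ih =>
      rintro ⟨b, h1, h2⟩
      obtain ⟨a0, h0, h⟩ := ih b h1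
      exact ⟨a0, h0, h.tail ⟨rfl, h2⟩⟩

theorem Ex.iter {B : ℕ} {F : Reg → ℕ → Prop} {G H : ℕ → ℕ → Reg → ℕ → Prop} (hF : Ex B F)
    (lG : ∀ k a s j v y, B ≤ j → (G k a (s.update j v) y ↔ G k a s y))
    (lH : ∀ k a s j v y, B ≤ j → (H k a (s.update j v) y ↔ H k a s y))
    (hG : ∀ r, B ≤ r → Ex (r + 2) (fun s y => G (s r) (s (r + 1)) s y))
    (hH : ∀ r, B ≤ r → Ex (r + 2) (fun s y => H (s r) (s (r + 1)) s y)) :
    Ex B (fun s y => ∃ k a, It (F s) (fun k a => G k a s) k a ∧ H k a s y) := by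
  refine ⟨fun s j v y hj => ?_, fun r o h1 h2 => ?_⟩
  · have e1 : F (s.update j v) = F s := funext fun y => propext (hF.loc s j v y hj)
    have e2 : (fun k a => G k a (s.update j v)) = fun k a => G k a s :=
      funext fun k => funext fun a => funext fun y => propext (lG k a s j v y hj)
    simp only [e1, e2, lH _ _ s j v _ hj]
  obtain ⟨R1, g1, e1⟩ := hF.asg (r + 2) (r + 1) (by omega) (by omega)
  obtain ⟨R2, g2, e2⟩ := (hG r h1).asg (r + 2) (r + 1) le_rfl (by omega)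
  obtain ⟨R3, g3, e3⟩ := (hH r h1).asg (r + 2) o le_rfl (by omega)
  refine ⟨_, g1.comp ((g2.comp (gen_inc r)).star.comp
    (g3.comp ((gen_clear r).comp (gen_clear (r + 1))))), fun s t hs => ?_⟩
  have c0 := hs r le_rfl
  have c1 := hs (r + 1) (by omega)
  have hc : ∀ p : ℕ × ℕ, Clean (r + 2) ((s.update r p.1).update (r + 1) p.2) := fun p =>
    ((hs.mono (by omega)).update (by omega) _).update (by omega) _
  have v1 : ∀ p : ℕ × ℕ, ((s.update r p.1).update (r + 1) p.2) r = p.1 := fun p => by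
    simp [Finsupp.update_apply]
  have v2 : ∀ p : ℕ × ℕ, ((s.update r p.1).update (r + 1) p.2) (r + 1) = p.2 := fun p => by simp
  have key : ∀ (p : ℕ × ℕ) (y : ℕ), ((s.update r p.1).update (r + 1) p.2).update (r + 1) y
      + Finsupp.single r 1 = (s.update r (p.1 + 1)).update (r + 1) y := by
    intro p y
    ext j
    simp only [Finsupp.coe_add, Pi.add_apply, Finsupp.update_apply, Finsupp.single_apply]
    split_ifs <;> subst_vars <;> omega
  have hsim : Sim (fun p : ℕ × ℕ => (s.update r p.1).update (r + 1) p.2)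
      (Relation.Comp R2 (inc r)) (fun p q : ℕ × ℕ => q.1 = p.1 + 1 ∧ G p.1 p.2 s q.2) := by
    intro p t
    constructor
    · rintro ⟨u, h, rfl⟩
      obtain ⟨y, k, rfl⟩ := (e2 _ _ (hc p)).1 h
      rw [v1, v2, lG _ _ _ _ _ _ (by omega), lG _ _ _ _ _ _ h1] at k
      exact ⟨(p.1 + 1, y), key p y, rfl, k⟩
    · rintro ⟨⟨k, y⟩, rfl, rfl, h⟩
      refine ⟨_, (e2 _ _ (hc p)).2 ⟨y, ?_, rfl⟩, (key p y).symm⟩
      beta_reduce
      rw [v1, v2, lG _ _ _ _ _ _ (by omega), lG _ _ _ _ _ _ h1]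
      exact h
  have init : ∀ a, s.update (r + 1) a = (s.update r ((0, a) : ℕ × ℕ).1).update (r + 1) (0, a).2 := by
    intro a
    simp only
    rw [← c0, Finsupp.update_self]
  have fin : ∀ (p : ℕ × ℕ) (y : ℕ),
      ((((s.update r p.1).update (r + 1) p.2).update o y).update r 0).update (r + 1) 0
        = s.update o y := by
    intro p y
    ext j
    have : o ≠ r := by omega
    have : o ≠ r + 1 := by omega
    simp only [Finsupp.update_apply]
    split_ifs <;> simp_all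
  constructor
  · rintro ⟨u, h, u1, h', u2, h'', _, rfl, rfl⟩
    obtain ⟨a0, k, rfl⟩ := (e1 _ _ (hs.mono (by omega))).1 h
    rw [init] at h'
    obtain ⟨p, rfl, hp⟩ := (hsim.star _ _).1 h'
    obtain ⟨y, k'', rfl⟩ := (e3 _ _ (hc p)).1 h''
    rw [v1, v2, lH _ _ _ _ _ _ (by omega), lH _ _ _ _ _ _ h1] at k''
    exact ⟨y, ⟨p.1, p.2, (it_iff _ _ p).1 ⟨a0, k, hp⟩, k''⟩, fin p y⟩
  · rintro ⟨y, ⟨k, a, h, h'⟩, rfl⟩
    obtain ⟨a0, h0, hp⟩ := (it_iff _ _ (k, a)).2 h
    refine ⟨_, (e1 _ _ (hs.mono (by omega))).2 ⟨a0, h0, rfl⟩, _, ?_, _,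
      (e3 _ _ (hc (k, a))).2 ⟨y, ?_, rfl⟩, _, rfl, (fin (k, a) y).symm⟩
    · rw [init]
      exact (hsim.star _ _).2 ⟨_, rfl, hp⟩
    · beta_reduce
      rw [v1, v2, lH _ _ _ _ _ _ (by omega), lH _ _ _ _ _ _ h1]
      exact h'

end Pool.Agent.P.MP_874ce0_al
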