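import Mathlib

/-! Languages with finitely many Antimirov derivatives, and their automata. -/

set_option autoImplicit false

namespace Pool.Agent.P.MP_874ce0_al

open Computability

variable {α : Type}

/-- A family of languages closed under derivatives. -/
def DClosed (S : Set (Language α)) : Prop :=
  ∀ K ∈ S, ∀ x w, x :: w ∈ K → ∃ K' ∈ S, w ∈ K' ∧ ∀ w' ∈ K', x :: w' ∈ K

def IsRat (L : Language α) : Prop := ∃ S : Set (Language α), S.Finite ∧ L ∈ S ∧ DClosed S

theorem IsRat.one : IsRat (1 : Language α) := by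
  refine ⟨{1}, Set.finite_singleton _, rfl, ?_⟩
  rintro K rfl x w h
  simp at h

theorem IsRat.add {L M : Language α} (hL : IsRat L) (hM : IsRat M) : IsRat (L + M) := by
  obtain ⟨S, hS, hLS, cS⟩ := hL
  obtain ⟨T, hT, hMT, cT⟩ := hM
  refine ⟨insert (L + M) (S ∪ T), (hS.union hT).insert _, Set.mem_insert _ _, ?_⟩
  rintro K (rfl | hK | hK) x w h
  · rcases (Language.mem_add _ _ _).1 h with h | h
    · obtain ⟨K', h1, h2, h3⟩ := cS _ hLS x w h
      exact ⟨K', Or.inr (Or.inl h1), h2, fun w' hw' => (Language.mem_add _ _ _).2 (Or.inl (h3 w' hw'))⟩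
    · obtain ⟨K', h1, h2, h3⟩ := cT _ hMT x w h
      exact ⟨K', Or.inr (Or.inr h1), h2, fun w' hw' => (Language.mem_add _ _ _).2 (Or.inr (h3 w' hw'))⟩
  · obtain ⟨K', h1, h2, h3⟩ := cS _ hK x w h
    exact ⟨K', Or.inr (Or.inl h1), h2, h3⟩
  · obtain ⟨K', h1, h2, h3⟩ := cT _ hK x w h
    exact ⟨K', Or.inr (Or.inr h1), h2, h3⟩

theorem IsRat.mul {L M : Language α} (hL : IsRat L) (hM : IsRat M) : IsRat (L * M) := by
  obtain ⟨S, hS, hLS, cS⟩ := hL
  obtain ⟨T, hT, hMT, cT⟩ := hM
  refine ⟨(fun K => K * M) '' S ∪ T, (hS.image _).union hT, Or.inl ⟨L, hLS, rfl⟩, ?_⟩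
  rintro K (⟨K, hK, rfl⟩ | hK) x w h
  · obtain ⟨u, hu, v, hv, huv⟩ := Language.mem_mul.1 h
    cases u with
    | nil =>
      rw [List.nil_append] at huv
      subst huv
      obtain ⟨K', h1, h2, h3⟩ := cT _ hMT x w hv
      exact ⟨K', Or.inr h1, h2, fun w' hw' => Language.mem_mul.2 ⟨[], hu, _, h3 w' hw', rfl⟩⟩
    | cons y u =>
      rw [List.cons_append, List.cons.injEq] at huv
      obtain ⟨rfl, rfl⟩ := huv
      obtain ⟨K', h1, h2, h3⟩ := cS _ hK y u hu
      refine ⟨K' * M, Or.inl ⟨K', h1, rfl⟩, Language.append_mem_mul h2 hv, fun w' hw' => ?_⟩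
      obtain ⟨u', hu', v', hv', rfl⟩ := Language.mem_mul.1 hw'
      exact Language.mem_mul.2 ⟨_, h3 u' hu', v', hv', rfl⟩
  · obtain ⟨K', h1, h2, h3⟩ := cT _ hK x w h
    exact ⟨K', Or.inr h1, h2, h3⟩

theorem mul_kstar_mem {L : Language α} {u v : List α} (hu : u ∈ L) (hv : v ∈ L∗) :
    u ++ v ∈ L∗ := by
  obtain ⟨l, rfl, hl⟩ := Language.mem_kstar.1 hv
  refine Language.mem_kstar.2 ⟨u :: l, by simp, ?_⟩
  intro y hy
  rcases List.mem_cons.1 hy with rfl | hy
  · exact hu
  · exact hl y hy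

theorem kstar_cons {L : Language α} {x : α} {w : List α} (h : x :: w ∈ L∗) :
    ∃ u v, x :: u ∈ L ∧ v ∈ L∗ ∧ w = u ++ v := by
  obtain ⟨l, hl, hl'⟩ := Language.mem_kstar.1 h
  induction l with
  | nil => simp at hl
  | cons y l ih =>
    cases y with
    | nil => exact ih (by simpa using hl) (fun z hz => hl' z (List.mem_cons_of_mem _ hz))
    | cons z y =>
      simp only [List.flatten_cons, List.cons_append, List.cons.injEq] at hl
      obtain ⟨rfl, rfl⟩ := hl
      exact ⟨y, l.flatten, hl' _ (List.mem_cons_self ..),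
        Language.join_mem_kstar (fun z hz => hl' z (List.mem_cons_of_mem _ hz)), rfl⟩

theorem kstar_ind {L : Language α} {P : List α → Prop} (h0 : P [])
    (h1 : ∀ u v, u ∈ L → P v → P (u ++ v)) : ∀ w ∈ L∗, P w := by
  intro w hw
  obtain ⟨l, rfl, hl⟩ := Language.mem_kstar.1 hw
  clear hw
  induction l with
  | nil => exact h0
  | cons y l ih =>
    exact h1 _ _ (hl _ (List.mem_cons_self ..)) (ih (fun z hz => hl z (List.mem_cons_of_mem _ hz)))

theorem IsRat.kstar {L : Language α} (hL : IsRat L) : IsRat (L∗) := by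
  obtain ⟨S, hS, hLS, cS⟩ := hL
  have key : ∀ x w, x :: w ∈ L∗ → ∃ K' ∈ S, w ∈ K' * L∗ ∧ ∀ w' ∈ K' * L∗, x :: w' ∈ L∗ := by
    intro x w h
    obtain ⟨u, v, hu, hv, rfl⟩ := kstar_cons h
    obtain ⟨K', h1, h2, h3⟩ := cS _ hLS x u hu
    refine ⟨K', h1, Language.append_mem_mul h2 hv, fun w' hw' => ?_⟩
    obtain ⟨u', hu', v', hv', rfl⟩ := Language.mem_mul.1 hw'
    exact mul_kstar_mem (h3 u' hu') hv'
  refine ⟨insert (L∗) ((fun K => K * L∗) '' S), (hS.image _).insert _, Set.mem_insert _ _, ?_⟩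
  rintro K (rfl | ⟨K, hK, rfl⟩) x w h
  · obtain ⟨K', h1, h2, h3⟩ := key x w h
    exact ⟨K' * L∗, Or.inr ⟨K', h1, rfl⟩, h2, h3⟩
  · obtain ⟨u, hu, v, hv, huv⟩ := Language.mem_mul.1 h
    cases u with
    | nil =>
      rw [List.nil_append] at huv
      subst huv
      obtain ⟨K', h1, h2, h3⟩ := key x w hv
      exact ⟨K' * L∗, Or.inr ⟨K', h1, rfl⟩, h2,
        fun w' hw' => Language.mem_mul.2 ⟨[], hu, _, h3 w' hw', rfl⟩⟩
    | cons y u =>
      rw [List.cons_append, List.cons.injEq] at huv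
      obtain ⟨rfl, rfl⟩ := huv
      obtain ⟨K', h1, h2, h3⟩ := cS _ hK y u hu
      refine ⟨K' * L∗, Or.inr ⟨K', h1, rfl⟩, Language.append_mem_mul h2 hv, fun w' hw' => ?_⟩
      obtain ⟨u', hu', v', hv', rfl⟩ := Language.mem_mul.1 hw'
      exact Language.mem_mul.2 ⟨_, h3 u' hu', v', hv', rfl⟩

/-- The language with a single word. -/
def sing (w : List α) : Language α := {v | v = w}

@[simp] theorem mem_sing {v w : List α} : v ∈ sing w ↔ v = w := Iff.rfl

theorem IsRat.sing (w : List α) : IsRat (sing w) := by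
  refine ⟨(fun k => Pool.Agent.P.MP_874ce0_al.sing (w.drop k)) '' {k | k ≤ w.length},
    (Set.finite_le_nat _).image _, ⟨0, Nat.zero_le _, by simp⟩, ?_⟩
  rintro K ⟨k, hk, rfl⟩ x v h
  rw [mem_sing] at h
  have hk' : k < w.length := by
    by_contra hc
    rw [List.drop_eq_nil_of_le (by omega)] at h
    simp at h
  have h1 : v = w.drop (k + 1) := by
    rw [List.drop_eq_getElem_cons hk'] at h
    exact (List.cons.inj h).2
  refine ⟨_, ⟨k + 1, hk', rfl⟩, h1, ?_⟩
  intro w' hw'
  rw [mem_sing] at hw' ⊢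
  rw [hw', ← h1, h]

/-- Labelled paths of an automaton. -/
inductive Path {Q : Type} (δ : Q → α → Q → Prop) : Q → List α → Q → Prop
  | nil (q : Q) : Path δ q [] q
  | cons {p q r : Q} {x : α} {w : List α} : δ p x q → Path δ q w r → Path δ p (x :: w) r

theorem Path.snoc {Q : Type} {δ : Q → α → Q → Prop} {p q r : Q} {w : List α} {x : α}
    (h : Path δ p w q) (hx : δ q x r) : Path δ p (w ++ [x]) r := by
  induction h with
  | nil q => exact Path.cons hx (Path.nil _)
  | cons h1 _ ih => exact Path.cons h1 (ih hx)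

/-- A rational language without the empty word is read by a finite automaton with one initial and
one final state. -/
theorem IsRat.automaton {L : Language α} (hL : IsRat L) (h0 : [] ∉ L) :
    ∃ (m : ℕ) (δ : Fin m → α → Fin m → Prop) (q0 qf : Fin m), ∀ w, w ∈ L ↔ Path δ q0 w qf := by
  obtain ⟨S, hS, hLS, cS⟩ := hL
  have hfin : (insert 1 S).Finite := hS.insert _
  have : Finite ↥(insert (1 : Language α) S) := hfin
  obtain ⟨m, ⟨e⟩⟩ := Finite.exists_equiv_fin ↥(insert (1 : Language α) S)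
  refine ⟨m, fun p x q => ∀ w' ∈ (e.symm q).1, x :: w' ∈ (e.symm p).1,
    e ⟨L, Or.inr hLS⟩, e ⟨1, Or.inl rfl⟩, fun w => ⟨fun hw => ?_, fun hw => ?_⟩⟩
  · have key : ∀ (w : List α) (K : Language α) (hK : K ∈ S), w ≠ [] → w ∈ K →
        Path (fun p x q => ∀ w' ∈ (e.symm q).1, x :: w' ∈ (e.symm p).1)
          (e ⟨K, Or.inr hK⟩) w (e ⟨1, Or.inl rfl⟩) := by
      intro w
      induction w with
      | nil => intro K hK h; exact absurd rfl h
      | cons x w ih =>
        intro K hK _ hw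
        by_cases hw0 : w = []
        · subst hw0
          refine Path.cons ?_ (Path.nil _)
          intro w' hw'
          simp only [Equiv.symm_apply_apply, Language.mem_one] at hw' ⊢
          rw [hw']; exact hw
        · obtain ⟨K', h1, h2, h3⟩ := cS _ hK x w hw
          refine Path.cons ?_ (ih K' h1 hw0 h2)
          simpa using h3
    exact key w L hLS (fun h => h0 (h ▸ hw)) hw
  · have key : ∀ p w q, Path (fun p x q => ∀ w' ∈ (e.symm q).1, x :: w' ∈ (e.symm p).1) p w q →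
        [] ∈ (e.symm q).1 → w ∈ (e.symm p).1 := by
      intro p w q h
      induction h with
      | nil q => exact id
      | cons h1 _ ih => exact fun hq => h1 _ (ih hq)
    simpa using key _ _ _ hw (by simp)

end Pool.Agent.P.MP_874ce0_al
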