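import Pool.Agent.P.MP_874ce0_al.Prog

/-! Every function in `Nat.Partrec` is computed by a register program; an undecidable relation
generated by two integer counters. -/

set_option autoImplicit false

namespace Pool.Agent.P.MP_874ce0_al

def Fn1 (f : ℕ → ℕ → Prop) : Prop :=
  ∀ {B : ℕ} {F : Reg → ℕ → Prop}, Ex B F → Ex B (fun s y => ∃ t, F s t ∧ f t y)

def Fn2 (f : ℕ → ℕ → ℕ → Prop) : Prop :=
  ∀ {B : ℕ} {F G : Reg → ℕ → Prop}, Ex B F → Ex B G →
    Ex B (fun s y => ∃ a b, F s a ∧ G s b ∧ f a b y)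

theorem Fn1.of_reg {f : ℕ → ℕ → Prop} (h : ∀ B i, i < B → Ex B (fun s y => f (s i) y)) :
    Fn1 f := by
  intro B F hF
  exact hF.bind (G := fun a _ y => f a y) (fun _ _ _ _ _ _ => Iff.rfl)
    (fun r _ => h (r + 1) r (by omega))

theorem Fn2.of_reg {f : ℕ → ℕ → ℕ → Prop}
    (h : ∀ B i j, i < B → j < B → Ex B (fun s y => f (s i) (s j) y)) : Fn2 f := by
  intro B F G hF hG
  refine (hF.bind (G := fun a s y => ∃ b, G s b ∧ f a b y)
    (fun a s j v y hj => by simp only [hG.loc s j v _ hj]) (fun r hr => ?_)).congr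
    (fun s y => by simp only [exists_and_left])
  refine (hG.mono (by omega)).bind (G := fun b s y => f (s r) b y) (fun a s j v y hj => ?_)
    (fun r' hr' => h (r' + 1) r r' (by omega) (by omega))
  rw [Finsupp.update_apply, if_neg (by omega)]

theorem upd_ne {s : Reg} {i j v B : ℕ} (hi : i < B) (hj : B ≤ j) : (s.update j v) i = s i := by
  rw [Finsupp.update_apply, if_neg (by omega)]

theorem fn_add : Fn2 (fun a b y => y = a + b) := by
  refine Fn2.of_reg (fun B i j hi hj => ?_)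
  refine (Ex.iter (G := fun _ a _ y => ∃ t, t = a ∧ y = t + 1)
    (H := fun k a s y => (∃ t, t = k ∧ t = s j) ∧ y = a) (Ex.reg hi)
    (fun _ _ _ _ _ _ _ => Iff.rfl) (fun _ _ _ _ _ _ h => by rw [upd_ne hj h])
    (fun r _ => (Ex.reg (by omega)).succ)
    (fun r _ => (Ex.reg (by omega)).guardEq (Ex.reg (by omega)) (Ex.reg (by omega)))).congr
    (fun s y => ?_)
  have key : ∀ k a, It (fun y => y = s i) (fun _ a y => ∃ t, t = a ∧ y = t + 1) k a ↔
      a = s i + k := by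
    intro k
    induction k with
    | zero => intro a; simp [It]
    | succ k ih => intro a; simp only [It, ih]; simp [add_assoc]
  simp only [key]
  simp

theorem fn_mul : Fn2 (fun a b y => y = a * b) := by
  refine Fn2.of_reg (fun B i j hi hj => ?_)
  refine (Ex.iter (G := fun _ a s y => ∃ t u, t = a ∧ u = s j ∧ y = t + u)
    (H := fun k a s y => (∃ t, t = k ∧ t = s i) ∧ y = a) (Ex.zero B)
    (fun _ _ _ _ _ _ h => by rw [upd_ne hj h]) (fun _ _ _ _ _ _ h => by rw [upd_ne hi h])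
    (fun r _ => fn_add (Ex.reg (by omega)) (Ex.reg (by omega)))
    (fun r _ => (Ex.reg (by omega)).guardEq (Ex.reg (by omega)) (Ex.reg (by omega)))).congr
    (fun s y => ?_)
  have key : ∀ k a, It (fun y => y = 0) (fun _ a y => ∃ t u, t = a ∧ u = s j ∧ y = t + u) k a ↔
      a = k * s j := by
    intro k
    induction k with
    | zero => intro a; simp [It]
    | succ k ih => intro a; simp only [It, ih]; simp [add_mul]
  simp only [key]
  simp

theorem fn_pair : Fn2 (fun a b y => y = Nat.pair a b) := by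
  refine Fn2.of_reg (fun B i j hi hj => ?_)
  refine ((((fn_add (Ex.reg hi) (Ex.any B)).succ).guardEq (Ex.reg hj)
    (fn_add (fn_mul (Ex.reg hj) (Ex.reg hj)) (Ex.reg hi))).alt
    ((fn_add (Ex.reg hj) (Ex.any B)).guardEq (Ex.reg hi)
    (fn_add (fn_add (fn_mul (Ex.reg hi) (Ex.reg hi)) (Ex.reg hi)) (Ex.reg hj)))).congr
    (fun s y => ?_)
  unfold Nat.pair
  constructor
  · rintro (⟨⟨_, ⟨_, ⟨_, t, rfl, -, rfl⟩, rfl⟩, h⟩, _, _, ⟨_, _, rfl, rfl, rfl⟩, rfl, rfl⟩ |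
      ⟨⟨_, ⟨_, t, rfl, -, rfl⟩, h⟩, _, _, ⟨_, _, ⟨_, _, rfl, rfl, rfl⟩, rfl, rfl⟩, rfl, rfl⟩)
    · rw [if_pos (by omega)]
    · rw [if_neg (by omega)]
  · rintro rfl
    by_cases h : s i < s j
    · rw [if_pos h]
      exact Or.inl ⟨⟨_, ⟨_, ⟨_, s j - s i - 1, rfl, trivial, rfl⟩, rfl⟩, by omega⟩,
        _, _, ⟨_, _, rfl, rfl, rfl⟩, rfl, rfl⟩
    · rw [if_neg h]
      exact Or.inr ⟨⟨_, ⟨_, s i - s j, rfl, trivial, rfl⟩, by omega⟩,
        _, _, ⟨_, _, ⟨_, _, rfl, rfl, rfl⟩, rfl, rfl⟩, rfl, rfl⟩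

theorem fn_left : Fn1 (fun x y => y = x.unpair.1) := by
  refine Fn1.of_reg (fun B i hi => ?_)
  refine ((Ex.any B).bind (G := fun a s y =>
      (∃ t, (∃ u v, u = a ∧ True ∧ t = Nat.pair u v) ∧ t = s i) ∧ y = a)
    (fun _ _ _ _ _ h => by rw [upd_ne hi h])
    (fun r _ => (fn_pair (Ex.reg (by omega)) (Ex.any _)).guardEq (Ex.reg (by omega))
      (Ex.reg (by omega)))).congr (fun s y => ⟨?_, ?_⟩)
  · rintro ⟨a, -, ⟨_, ⟨_, v, rfl, -, rfl⟩, h⟩, rfl⟩
    rw [← h, Nat.unpair_pair]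
  · rintro rfl
    exact ⟨_, trivial, ⟨_, ⟨_, (s i).unpair.2, rfl, trivial, rfl⟩, Nat.pair_unpair _⟩, rfl⟩

theorem fn_right : Fn1 (fun x y => y = x.unpair.2) := by
  refine Fn1.of_reg (fun B i hi => ?_)
  refine ((Ex.any B).bind (G := fun a s y =>
      (∃ t, (∃ u v, True ∧ v = a ∧ t = Nat.pair u v) ∧ t = s i) ∧ y = a)
    (fun _ _ _ _ _ h => by rw [upd_ne hi h])
    (fun r _ => (fn_pair (Ex.any _) (Ex.reg (by omega))).guardEq (Ex.reg (by omega))
      (Ex.reg (by omega)))).congr (fun s y => ⟨?_, ?_⟩)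
  · rintro ⟨a, -, ⟨_, ⟨u, _, -, rfl, rfl⟩, h⟩, rfl⟩
    rw [← h, Nat.unpair_pair]
  · rintro rfl
    exact ⟨_, trivial, ⟨_, ⟨(s i).unpair.1, _, trivial, rfl, rfl⟩, Nat.pair_unpair _⟩, rfl⟩

theorem fn_partrec {f : ℕ →. ℕ} (hf : Nat.Partrec f) : Fn1 (fun x y => y ∈ f x) := by
  induction hf with
  | zero =>
    refine Fn1.of_reg (fun B i _ => (Ex.zero B).congr (fun s y => ?_))
    exact (Part.mem_some_iff).symm
  | succ =>
    refine Fn1.of_reg (fun B i hi => (Ex.reg hi).succ.congr (fun s y => ?_))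
    simp
  | left =>
    refine Fn1.of_reg (fun B i hi => (fn_left (Ex.reg hi)).congr (fun s y => ?_))
    simp
  | right =>
    refine Fn1.of_reg (fun B i hi => (fn_right (Ex.reg hi)).congr (fun s y => ?_))
    simp
  | pair _ _ ihf ihg =>
    refine Fn1.of_reg (fun B i hi =>
      (fn_pair (ihf (Ex.reg hi)) (ihg (Ex.reg hi))).congr (fun s y => ?_))
    simp [Seq.seq, eq_comm]
  | comp _ _ ihf ihg =>
    refine Fn1.of_reg (fun B i hi => (ihf (ihg (Ex.reg hi))).congr (fun s y => ?_))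
    refine Iff.trans ?_ Part.mem_bind_iff.symm
    simp
  | @prec f g _ _ ihf ihg =>
    refine Fn1.of_reg (fun B i hi => ?_)
    refine (Ex.iter
      (G := fun k a s y => ∃ t, (∃ u v, (∃ x, x = s i ∧ u = x.unpair.1) ∧
        (∃ c d, c = k ∧ d = a ∧ v = Nat.pair c d) ∧ t = Nat.pair u v) ∧ y ∈ g t)
      (H := fun k a s y => (∃ t, t = k ∧ ∃ x, x = s i ∧ t = x.unpair.2) ∧ y = a)
      (ihf (fn_left (Ex.reg hi)))
      (fun _ _ _ _ _ _ h => by rw [upd_ne hi h]) (fun _ _ _ _ _ _ h => by rw [upd_ne hi h])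
      (fun r _ => ihg (fn_pair (fn_left (Ex.reg (by omega)))
        (fn_pair (Ex.reg (by omega)) (Ex.reg (by omega)))))
      (fun r _ => (Ex.reg (by omega)).guardEq (fn_right (Ex.reg (by omega)))
        (Ex.reg (by omega)))).congr (fun s y => ?_)
    have key : ∀ k a, It (fun y => ∃ t, (∃ x, x = s i ∧ t = x.unpair.1) ∧ y ∈ f t)
        (fun k a y => ∃ t, (∃ u v, (∃ x, x = s i ∧ u = x.unpair.1) ∧
          (∃ c d, c = k ∧ d = a ∧ v = Nat.pair c d) ∧ t = Nat.pair u v) ∧ y ∈ g t) k a ↔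
        a ∈ (Nat.rec (f (s i).unpair.1)
          (fun y IH => do let j ← IH; g (Nat.pair (s i).unpair.1 (Nat.pair y j))) k : Part ℕ) := by
      intro k
      induction k with
      | zero => intro a; simp [It]
      | succ k ih => intro a; simp only [It, ih]; simp
    simp only [key]
    simp [Nat.unpaired]
  | @rfind f _ ihf =>
    refine Fn1.of_reg (fun B i hi => ?_)
    refine (Ex.iter
      (G := fun k _ s y => (∃ z, (∃ t, (∃ u v, u = s i ∧ v = k ∧ t = Nat.pair u v) ∧ z ∈ f t) ∧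
        ∃ t, True ∧ z = t + 1) ∧ y = 0)
      (H := fun k _ s y => (∃ z, (∃ t, (∃ u v, u = s i ∧ v = k ∧ t = Nat.pair u v) ∧ z ∈ f t) ∧
        z = 0) ∧ y = k)
      (Ex.zero B)
      (fun _ _ _ _ _ _ h => by rw [upd_ne hi h]) (fun _ _ _ _ _ _ h => by rw [upd_ne hi h])
      (fun r _ => (ihf (fn_pair (Ex.reg (by omega)) (Ex.reg (by omega)))).guardEq
        (Ex.any _).succ (Ex.zero _))
      (fun r _ => (ihf (fn_pair (Ex.reg (by omega)) (Ex.reg (by omega)))).guardEq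
        (Ex.zero _) (Ex.reg (by omega)))).congr (fun s y => ?_)
    have key : ∀ k a, It (fun y => y = 0)
        (fun k _ y => (∃ z, (∃ t, (∃ u v, u = s i ∧ v = k ∧ t = Nat.pair u v) ∧ z ∈ f t) ∧
          ∃ t, True ∧ z = t + 1) ∧ y = 0) k a ↔
        a = 0 ∧ ∀ m < k, ∃ z, z ∈ f (Nat.pair (s i) m) ∧ z ≠ 0 := by
      intro k
      induction k with
      | zero => intro a; simp [It]
      | succ k ih =>
        intro a
        simp only [It, ih]
        constructor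
        · rintro ⟨_, ⟨rfl, h1⟩, ⟨z, ⟨_, ⟨_, _, rfl, rfl, rfl⟩, h2⟩, t, -, rfl⟩, rfl⟩
          refine ⟨rfl, fun m hm => ?_⟩
          rcases Nat.lt_succ_iff_lt_or_eq.1 hm with h | rfl
          · exact h1 m h
          · exact ⟨_, h2, by omega⟩
        · rintro ⟨rfl, h⟩
          obtain ⟨z, h1, h2⟩ := h k (by omega)
          exact ⟨0, ⟨rfl, fun m hm => h m (by omega)⟩,
            ⟨z, ⟨_, ⟨_, _, rfl, rfl, rfl⟩, h1⟩, z - 1, trivial, by omega⟩, rfl⟩
    simp only [key]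
    refine Iff.trans ?_ Nat.mem_rfind.symm
    constructor
    · rintro ⟨k, a, ⟨rfl, h1⟩, ⟨_, ⟨_, ⟨_, _, rfl, rfl, rfl⟩, h2⟩, rfl⟩, rfl⟩
      refine ⟨(Part.mem_map_iff _).2 ⟨0, h2, by simp⟩, fun {m} hm => ?_⟩
      obtain ⟨z, h3, h4⟩ := h1 m hm
      exact (Part.mem_map_iff _).2 ⟨z, h3, by simp [h4]⟩
    · rintro ⟨h1, h2⟩
      obtain ⟨z, h3, h4⟩ := (Part.mem_map_iff _).1 h1
      obtain rfl : z = 0 := by simpa using h4
      refine ⟨y, 0, ⟨rfl, fun m hm => ?_⟩, ⟨_, ⟨_, ⟨_, _, rfl, rfl, rfl⟩, h3⟩, rfl⟩, rfl⟩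
      obtain ⟨z, h5, h6⟩ := (Part.mem_map_iff _).1 (h2 hm)
      exact ⟨z, h5, by simpa using h6⟩

/-- An undecidable relation generated by two integer counters with zero tests. -/
theorem exists_undecidable : ∃ R : ℤ × ℤ → ℤ × ℤ → Prop, Gen At1 R ∧ ∃ b : ℕ,
    ¬ ComputablePred (fun n : ℕ => R (((b ^ n : ℕ) : ℤ), 0) (1, 0)) := by
  let f : ℕ →. ℕ := fun n => (Denumerable.ofNat Nat.Partrec.Code n).eval 0
  have hf : Nat.Partrec f := Partrec.nat_iff.1
    (Nat.Partrec.Code.eval_part.comp (Computable.ofNat _) (Computable.const 0))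
  obtain ⟨R3, g3, e3⟩ := (fn_partrec hf (Ex.reg (B := 1) (i := 0) (by omega))).asg 1 0 le_rfl
    (by omega)
  obtain ⟨R2, g2, e2⟩ := Gen.sim enc3 sim3 (g3.comp (gen_clear 0))
  obtain ⟨R1, g1, e1⟩ := Gen.sim enc2 sim2 g2
  refine ⟨R1, g1, pr 0, fun h => ComputablePred.halting_problem 0 ?_⟩
  have key : ∀ n : ℕ, R1 (((pr 0 ^ n : ℕ) : ℤ), 0) (1, 0) ↔ (f n).Dom := by
    intro n
    have hc : Clean 1 (Finsupp.single 0 n) := fun j hj => by
      rw [Finsupp.single_apply, if_neg (by omega)]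
    have h0 : ∀ y, ((Finsupp.single 0 n : Reg).update 0 y).update 0 0 = 0 := by
      intro y
      ext j
      by_cases hj : j = 0 <;> simp [hj]
    constructor
    · intro h
      obtain ⟨m, -, h1⟩ := (e1 (pr 0 ^ n) _).1 h
      rw [← enc3_single] at h1
      obtain ⟨t, -, u, h2, -⟩ := (e2 _ _).1 h1
      obtain ⟨y, ⟨_, rfl, h3⟩, -⟩ := (e3 _ _ hc).1 h2
      rw [Finsupp.single_eq_same] at h3
      exact Part.dom_iff_mem.2 ⟨y, h3⟩
    · intro h
      obtain ⟨y, hy⟩ := Part.dom_iff_mem.1 h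
      refine (e1 (pr 0 ^ n) _).2 ⟨1, rfl, ?_⟩
      rw [← enc3_single]
      refine (e2 _ _).2 ⟨0, enc3_zero.symm, _, (e3 _ _ hc).2 ⟨y, ⟨_, rfl, ?_⟩, rfl⟩, (h0 y).symm⟩
      rwa [Finsupp.single_eq_same]
  have h2 : ComputablePred (fun n : ℕ => (f n).Dom) := h.of_eq key
  obtain ⟨g, hg, e⟩ := ComputablePred.computable_iff.1 h2
  refine ComputablePred.computable_iff.2 ⟨fun c => g (Encodable.encode c),
    hg.comp Computable.encode, ?_⟩
  funext c
  have := congrFun e (Encodable.encode c)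
  simpa [f] using this

end Pool.Agent.P.MP_874ce0_al
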