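import Pool.Agent.P.MP_874ce0_al.Rec
import Pool.Agent.P.MP_874ce0_al.Rat

/-! Two counters inside the group with generators `a, z` in which `a` commutes with `z a z⁻¹`. -/

set_option autoImplicit false

namespace Pool.Agent.P.MP_874ce0_al

open Computability

/-- Letters `a, z` and their inverses. -/
abbrev AL := Bool ⊕ Bool

abbrev la : AL := Sum.inl false
abbrev lz : AL := Sum.inl true
abbrev lA : AL := Sum.inr false
abbrev lZ : AL := Sum.inr true

/-- The relator `[a, z a z⁻¹]`. -/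
def relw : List AL := [la, lz, la, lZ, lA, lz, lA, lZ]

def evG {G : Type} [Group G] (A Z : G) : AL → G
  | Sum.inl false => A
  | Sum.inl true => Z
  | Sum.inr false => A⁻¹
  | Sum.inr true => Z⁻¹

def evW {G : Type} [Group G] (A Z : G) (w : List AL) : G := (w.map (evG A Z)).prod

theorem evW_append {G : Type} [Group G] (A Z : G) (u v : List AL) :
    evW A Z (u ++ v) = evW A Z u * evW A Z v := by simp [evW]

def evH {G : Type} [Group G] (A Z : G) (h : List Bool) : G :=
  (h.map (fun b => if b then Z * (Z * A * Z⁻¹) * Z⁻¹ else Z⁻¹ * A * Z)).prod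

theorem evH_append {G : Type} [Group G] (A Z : G) (u v : List Bool) :
    evH A Z (u ++ v) = evH A Z u * evH A Z v := by simp [evH]

/-- States: level, two counters, number of failed tests. -/
abbrev YY := ℤ × ℤ × ℤ × ℤ

def actA (e : ℤ) : YY → YY
  | (l, x, y, b) =>
    if l = 0 then (l, x + e, y, b) else if l = 1 then (l, x, y + e, b)
    else if l = 2 then (l, x, y, b + if x = 0 then 0 else e)
    else if l = -1 then (l, x, y, b + if y = 0 then 0 else e) else (l, x, y, b)

def actY : AL → YY → YY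
  | Sum.inl false, p => actA 1 p
  | Sum.inr false, p => actA (-1) p
  | Sum.inl true, (l, p) => (l + 1, p)
  | Sum.inr true, (l, p) => (l - 1, p)

def actW (w : List AL) (p : YY) : YY := w.foldl (fun p l => actY l p) p

theorem actW_append (u v : List AL) (p : YY) : actW (u ++ v) p = actW v (actW u p) := by
  simp [actW]

theorem actA_neg (e : ℤ) (p : YY) : actA (-e) (actA e p) = p := by
  obtain ⟨k, x, y, b⟩ := p
  by_cases h0 : k = 0
  · subst h0; simp [actA]
  by_cases h1 : k = 1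
  · subst h1; simp [actA]
  by_cases h2 : k = 2
  · subst h2; simp [actA]; split_ifs <;> simp
  by_cases h3 : k = -1
  · subst h3; simp [actA]; split_ifs <;> simp
  simp [actA, h0, h1, h2, h3]

theorem actY_swap (l : AL) (p : YY) : actY l.swap (actY l p) = p := by
  rcases l with (_ | _) | (_ | _)
  · exact actA_neg 1 p
  · obtain ⟨k, p⟩ := p
    simp [actY]
  · exact actA_neg (-1) p
  · obtain ⟨k, p⟩ := p
    simp [actY]

theorem actW_relw (p : YY) : actW relw p = p := by
  obtain ⟨k, x, y, b⟩ := p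
  by_cases h0 : k = 0
  · subst h0; simp [actW, relw, actY, actA]
  by_cases h1 : k = 1
  · subst h1; simp [actW, relw, actY, actA]; split_ifs <;> simp
  by_cases h2 : k = 2
  · subst h2; simp [actW, relw, actY, actA]; split_ifs <;> simp
  by_cases h3 : k = -1
  · subst h3; simp [actW, relw, actY, actA]; split_ifs <;> simp
  by_cases h4 : k = -2
  · subst h4; simp [actW, relw, actY, actA]; split_ifs <;> simp
  have e0 : k + 1 ≠ 0 := by omega
  have e1 : k + 1 ≠ 1 := by omega
  have e2 : k + 1 ≠ 2 := by omega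
  have e3 : k + 1 ≠ -1 := by omega
  simp [actW, relw, actY, actA, h0, h1, h2, h3, e0, e2, e3]

/-- The language `L` implements the relation `R` on counter values. -/
structure Impl (L : Language AL) (R : ℤ × ℤ → ℤ × ℤ → Prop) : Prop where
  rat : IsRat L
  snd : ∀ w ∈ L, ∀ x y b : ℤ, ∃ x' y' b', actW w (0, x, y, b) = (0, x', y', b') ∧ b ≤ b' ∧
    (b' = b → R (x, y) (x', y'))
  cmp : ∀ (G : Type) [Group G] (A Z : G), Commute A (Z * A * Z⁻¹) → ∀ p q, R p q →
    ∃ w ∈ L, ∃ h : List Bool, A ^ p.1 * (Z * A * Z⁻¹) ^ p.2 * evW A Z w =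
      evH A Z h * (A ^ q.1 * (Z * A * Z⁻¹) ^ q.2)

theorem impl_atom (R : ℤ × ℤ → ℤ × ℤ → Prop) (h : At1 R) : ∃ L, Impl L R := by
  rcases h with rfl | rfl | rfl | rfl | rfl | rfl
  · refine ⟨sing [la], IsRat.sing _, ?_, ?_⟩
    · rintro w rfl x y b
      exact ⟨x + 1, y, b, by simp [actW, actY, actA], le_rfl, fun _ => by simp [shift]⟩
    · rintro G _ A Z hc ⟨x, y⟩ q rfl
      refine ⟨_, rfl, [], ?_⟩
      simp only [evW, evH, evG, List.map, List.prod_cons, List.prod_nil, mul_one, one_mul,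
        Prod.mk_add_mk, add_zero]
      rw [mul_assoc, ← (hc.zpow_right y).eq, zpow_add_one, mul_assoc (A ^ x)]
  · refine ⟨sing [lA], IsRat.sing _, ?_, ?_⟩
    · rintro w rfl x y b
      exact ⟨x + -1, y, b, by simp [actW, actY, actA], le_rfl, fun _ => by simp [shift]⟩
    · rintro G _ A Z hc ⟨x, y⟩ q rfl
      refine ⟨_, rfl, [], ?_⟩
      simp only [evW, evH, evG, List.map, List.prod_cons, List.prod_nil, mul_one, one_mul,
        Prod.mk_add_mk, add_zero]
      rw [mul_assoc, ← (hc.inv_left.zpow_right y).eq, zpow_add, zpow_neg_one, mul_assoc (A ^ x)]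
  · refine ⟨sing [lz, la, lZ], IsRat.sing _, ?_, ?_⟩
    · rintro w rfl x y b
      exact ⟨x, y + 1, b, by simp [actW, actY, actA], le_rfl, fun _ => by simp [shift]⟩
    · rintro G _ A Z hc ⟨x, y⟩ q rfl
      refine ⟨_, rfl, [], ?_⟩
      simp only [evW, evH, evG, List.map, List.prod_cons, List.prod_nil, mul_one, one_mul,
        Prod.mk_add_mk, add_zero]
      rw [zpow_add_one]
      simp only [mul_assoc]
  · refine ⟨sing [lz, lA, lZ], IsRat.sing _, ?_, ?_⟩
    · rintro w rfl x y b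
      exact ⟨x, y + -1, b, by simp [actW, actY, actA], le_rfl, fun _ => by simp [shift]⟩
    · rintro G _ A Z hc ⟨x, y⟩ q rfl
      refine ⟨_, rfl, [], ?_⟩
      simp only [evW, evH, evG, List.map, List.prod_cons, List.prod_nil, mul_one, one_mul,
        Prod.mk_add_mk, add_zero]
      rw [zpow_add, zpow_neg_one]
      simp only [mul_inv_rev, inv_inv, mul_assoc]
  · refine ⟨sing [lz, lz, la, lZ, lZ], IsRat.sing _, ?_, ?_⟩
    · rintro w rfl x y b
      refine ⟨x, y, b + if x = 0 then 0 else 1, by simp [actW, actY, actA], ?_, fun h => ?_⟩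
      · split_ifs <;> omega
      · refine ⟨?_, rfl⟩
        by_contra hx
        rw [if_neg hx] at h
        omega
    · rintro G _ A Z hc ⟨x, y⟩ q ⟨hx, rfl⟩
      obtain rfl : x = 0 := hx
      refine ⟨_, rfl, [true], ?_⟩
      have hc' : Commute (Z * A * Z⁻¹) (Z * (Z * A * Z⁻¹) * Z⁻¹) := hc.conj Z
      simp only [evW, evH, evG, List.map, List.prod_cons, List.prod_nil, mul_one, one_mul,
        zpow_zero, if_true]
      rw [← (hc'.zpow_left y).eq]
      simp only [mul_assoc]
  · refine ⟨sing [lZ, la, lz], IsRat.sing _, ?_, ?_⟩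
    · rintro w rfl x y b
      refine ⟨x, y, b + if y = 0 then 0 else 1, by simp [actW, actY, actA], ?_, fun h => ?_⟩
      · split_ifs <;> omega
      · refine ⟨?_, rfl⟩
        by_contra hy
        rw [if_neg hy] at h
        omega
    · rintro G _ A Z hc ⟨x, y⟩ q ⟨hy, rfl⟩
      obtain rfl : y = 0 := hy
      refine ⟨_, rfl, [false], ?_⟩
      have hc' : Commute (Z⁻¹ * A * Z) A := by
        have := hc.conj Z⁻¹
        simpa [mul_assoc] using this
      simp only [evW, evH, evG, List.map, List.prod_cons, List.prod_nil, mul_one,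
        zpow_zero, Bool.false_eq_true, if_false]
      rw [(hc'.zpow_right x).eq]
      simp only [mul_assoc]

theorem impl_gen {R : ℤ × ℤ → ℤ × ℤ → Prop} (h : Gen At1 R) : ∃ L, Impl L R := by
  induction h with
  | atom h => exact impl_atom _ h
  | comp _ _ ih1 ih2 =>
    obtain ⟨L1, i1⟩ := ih1
    obtain ⟨L2, i2⟩ := ih2
    refine ⟨L1 * L2, i1.rat.mul i2.rat, ?_, ?_⟩
    · intro w hw x y b
      obtain ⟨u, hu, v, hv, rfl⟩ := Language.mem_mul.1 hw
      obtain ⟨x1, y1, b1, e1, l1, r1⟩ := i1.snd u hu x y b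
      obtain ⟨x2, y2, b2, e2, l2, r2⟩ := i2.snd v hv x1 y1 b1
      refine ⟨x2, y2, b2, by rw [actW_append, e1, e2], l1.trans l2, fun h => ?_⟩
      exact ⟨_, r1 (by omega), r2 (by omega)⟩
    · rintro G _ A Z hc p q ⟨r, h1, h2⟩
      obtain ⟨u, hu, k1, e1⟩ := i1.cmp G A Z hc p r h1
      obtain ⟨v, hv, k2, e2⟩ := i2.cmp G A Z hc r q h2
      refine ⟨u ++ v, Language.append_mem_mul hu hv, k1 ++ k2, ?_⟩
      rw [evW_append, evH_append, ← mul_assoc, e1, mul_assoc, e2, mul_assoc (evH A Z k1)]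
  | union _ _ ih1 ih2 =>
    obtain ⟨L1, i1⟩ := ih1
    obtain ⟨L2, i2⟩ := ih2
    refine ⟨L1 + L2, i1.rat.add i2.rat, ?_, ?_⟩
    · intro w hw x y b
      rcases (Language.mem_add _ _ _).1 hw with hw | hw
      · obtain ⟨x1, y1, b1, e1, l1, r1⟩ := i1.snd w hw x y b
        exact ⟨x1, y1, b1, e1, l1, fun h => Or.inl (r1 h)⟩
      · obtain ⟨x1, y1, b1, e1, l1, r1⟩ := i2.snd w hw x y b
        exact ⟨x1, y1, b1, e1, l1, fun h => Or.inr (r1 h)⟩
    · rintro G _ A Z hc p q (h | h)
      · obtain ⟨u, hu, k1, e1⟩ := i1.cmp G A Z hc p q h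
        exact ⟨u, (Language.mem_add _ _ _).2 (Or.inl hu), k1, e1⟩
      · obtain ⟨u, hu, k1, e1⟩ := i2.cmp G A Z hc p q h
        exact ⟨u, (Language.mem_add _ _ _).2 (Or.inr hu), k1, e1⟩
  | star _ ih =>
    obtain ⟨L1, i1⟩ := ih
    refine ⟨L1∗, i1.rat.kstar, ?_, ?_⟩
    · refine kstar_ind (fun x y b => ⟨x, y, b, rfl, le_rfl, fun _ => Relation.ReflTransGen.refl⟩) ?_
      intro u v hu ih x y b
      obtain ⟨x1, y1, b1, e1, l1, r1⟩ := i1.snd u hu x y b
      obtain ⟨x2, y2, b2, e2, l2, r2⟩ := ih x1 y1 b1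
      refine ⟨x2, y2, b2, by rw [actW_append, e1, e2], l1.trans l2, fun h => ?_⟩
      exact Relation.ReflTransGen.head (r1 (by omega)) (r2 (by omega))
    · intro G _ A Z hc p q h
      induction h using Relation.ReflTransGen.head_induction_on with
      | refl => exact ⟨[], Language.nil_mem_kstar _, [], by simp [evW, evH]⟩
      | head h1 _ ih =>
        obtain ⟨u, hu, k1, e1⟩ := i1.cmp G A Z hc _ _ h1
        obtain ⟨v, hv, k2, e2⟩ := ih
        refine ⟨u ++ v, mul_kstar_mem hu hv, k1 ++ k2, ?_⟩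
        rw [evW_append, evH_append, ← mul_assoc, e1, mul_assoc, e2, mul_assoc (evH A Z k1)]

/-- Words erasing the record of the tests. -/
def clr : Language AL := (sing [lz, lz, lA, lZ, lZ] + sing [lZ, lA, lz])∗

theorem clr_snd : ∀ w ∈ clr, ∀ x y b : ℤ, ∃ b', actW w (0, x, y, b) = (0, x, y, b') ∧
    (x = 0 → y = 0 → b' = b) := by
  refine kstar_ind (fun x y b => ⟨b, rfl, fun _ _ => rfl⟩) ?_
  intro u v hu ih x y b
  rcases (Language.mem_add _ _ _).1 hu with rfl | rfl
  · obtain ⟨b', e, h⟩ := ih x y (b + if x = 0 then 0 else -1)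
    refine ⟨b', ?_, fun hx hy => by simpa [hx] using h hx hy⟩
    rw [actW_append, ← e]
    simp [actW, actY, actA]
  · obtain ⟨b', e, h⟩ := ih x y (b + if y = 0 then 0 else -1)
    refine ⟨b', ?_, fun hx hy => by simpa [hy] using h hx hy⟩
    rw [actW_append, ← e]
    simp [actW, actY, actA]

theorem clr_cmp {G : Type} [Group G] (A Z : G) (h : List Bool) :
    ∃ w ∈ clr, evH A Z h * evW A Z w = 1 := by
  induction h using List.reverseRecOn with
  | nil => exact ⟨[], Language.nil_mem_kstar _, by simp [evH, evW]⟩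
  | append_singleton h b ih =>
    obtain ⟨w, hw, e⟩ := ih
    cases b
    · refine ⟨[lZ, lA, lz] ++ w, mul_kstar_mem ((Language.mem_add _ _ _).2 (Or.inr rfl)) hw, ?_⟩
      rw [evH_append, evW_append, ← e]
      simp [evH, evW, evG, mul_assoc]
    · refine ⟨[lz, lz, lA, lZ, lZ] ++ w,
        mul_kstar_mem ((Language.mem_add _ _ _).2 (Or.inl rfl)) hw, ?_⟩
      rw [evH_append, evW_append, ← e]
      simp [evH, evW, evG, mul_assoc]

/-- A finite automaton whose rational subset has undecidable membership. -/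
theorem exists_automaton : ∃ (m : ℕ) (δ : Fin m → AL → Fin m → Prop) (q0 qf : Fin m)
    (S : ℕ → Prop) (b : ℕ), ¬ ComputablePred (fun n => S (b ^ n)) ∧
    (∀ (N : ℕ) w, Path δ q0 w qf → actW w (0, N, 0, 0) = (0, 0, 0, 0) → S N) ∧
    (∀ (G : Type) [Group G] (A Z : G), Commute A (Z * A * Z⁻¹) → ∀ N, S N →
      ∃ w, Path δ q0 w qf ∧ A ^ N * evW A Z w = 1) := by
  obtain ⟨R, hR, b, hb⟩ := exists_undecidable
  obtain ⟨L, iL⟩ := impl_gen hR
  have hrat : IsRat (L * (sing [lA] * clr)) :=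
    iL.rat.mul ((IsRat.sing _).mul ((IsRat.sing _).add (IsRat.sing _)).kstar)
  have hne : [] ∉ L * (sing [lA] * clr) := by
    intro h
    obtain ⟨u, -, v, hv, e⟩ := Language.mem_mul.1 h
    obtain ⟨_, rfl, v', -, rfl⟩ := Language.mem_mul.1 hv
    simp at e
  obtain ⟨m, δ, q0, qf, e⟩ := hrat.automaton hne
  refine ⟨m, δ, q0, qf, fun N => R (N, 0) (1, 0), b, hb, ?_, ?_⟩
  · intro N w hw ha
    obtain ⟨u, hu, v, hv, rfl⟩ := Language.mem_mul.1 ((e w).2 hw)
    obtain ⟨_, rfl, v', hv', rfl⟩ := Language.mem_mul.1 hv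
    obtain ⟨x, y, b1, e1, l1, r1⟩ := iL.snd u hu N 0 0
    obtain ⟨b2, e2, r2⟩ := clr_snd v' hv' (x + -1) y b1
    have e3 : actW [lA] (0, x, y, b1) = (0, x + -1, y, b1) := by simp [actW, actY, actA]
    rw [actW_append, actW_append, e1, e3, e2] at ha
    simp only [Prod.mk.injEq, true_and] at ha
    obtain ⟨h1, h2, h3⟩ := ha
    have h4 := r1 (by rw [← r2 h1 h2, h3])
    obtain rfl : x = 1 := by omega
    rwa [h2] at h4
  · intro G _ A Z hc N hN
    obtain ⟨u, hu, h, e1⟩ := iL.cmp G A Z hc _ _ hN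
    obtain ⟨v, hv, e2⟩ := clr_cmp A Z h
    refine ⟨u ++ ([lA] ++ v), (e _).1 (Language.append_mem_mul hu
      (Language.append_mem_mul (by rfl) hv)), ?_⟩
    simp only [zpow_natCast, zpow_zero, mul_one, zpow_one] at e1
    rw [evW_append, evW_append, ← mul_assoc, e1, ← e2]
    simp [evW, evG, mul_assoc]

end Pool.Agent.P.MP_874ce0_al
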